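import Pool.Agent.Lib.c113aaT.TriC

section

set_option autoImplicit false

namespace Pool.Agent.Lib.c113aaT

theorem quad_norm (α β : ℂ) : ‖α ^ 2 - α * β + β ^ 2‖ ^ 2 =
    (‖α‖ ^ 2) ^ 2 + (‖β‖ ^ 2) ^ 2 - ‖α‖ ^ 2 * ‖β‖ ^ 2 + 4 * (α.re * β.re + α.im * β.im) ^ 2 -
      2 * (‖α‖ ^ 2 + ‖β‖ ^ 2) * (α.re * β.re + α.im * β.im) := by
  rw [nsq, nsq α, nsq β]
  simp only [pow_two, Complex.add_re, Complex.sub_re, Complex.mul_re, Complex.add_im,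
    Complex.sub_im, Complex.mul_im]
  ring

theorem quad_min1 {α β : ℂ} (h : ‖β‖ ≤ ‖α‖) (hR : 0 ≤ α.re * β.re + α.im * β.im) :
    ‖α ^ 2 - α * β + β ^ 2‖ ≤ ‖α‖ ^ 2 := by
  apply le_of_sq_le_sq _ (by positivity)
  rw [quad_norm]
  have h1 : ‖β‖ ^ 2 ≤ ‖α‖ ^ 2 := pow_le_pow_left₀ (norm_nonneg _) h 2
  have h2 : 2 * (α.re * β.re + α.im * β.im) ≤ ‖α‖ ^ 2 + ‖β‖ ^ 2 := by
    rw [nsq, nsq]
    nlinarith [sq_nonneg (α.re - β.re), sq_nonneg (α.im - β.im)]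
  nlinarith [mul_nonneg hR (sub_nonneg.2 h2), mul_nonneg (sq_nonneg ‖β‖) (sub_nonneg.2 h1)]

theorem quad_min {α β : ℂ} {D M : ℝ} (h1 : D ≤ ‖α ^ 2 - α * β + β ^ 2‖)
    (h2 : D ≤ ‖α ^ 2 + α * β + β ^ 2‖) (hα : ‖α‖ ^ 2 ≤ M) (hβ : ‖β‖ ^ 2 ≤ M) : D ≤ M := by
  have key : ∀ α β : ℂ, D ≤ ‖α ^ 2 - α * β + β ^ 2‖ → D ≤ ‖α ^ 2 + α * β + β ^ 2‖ →
      ‖β‖ ≤ ‖α‖ → D ≤ ‖α‖ ^ 2 := by
    intro α β h1 h2 h
    rcases le_total 0 (α.re * β.re + α.im * β.im) with hR | hR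
    · exact h1.trans (quad_min1 h hR)
    · have h3 := quad_min1 (α := α) (β := -β) (by rwa [norm_neg])
        (by rw [Complex.neg_re, Complex.neg_im]; linarith)
      have e : α ^ 2 - α * -β + (-β) ^ 2 = α ^ 2 + α * β + β ^ 2 := by ring
      rw [e] at h3
      exact h2.trans h3
  rcases le_total ‖β‖ ‖α‖ with h | h
  · exact (key α β h1 h2 h).trans hα
  · refine (key β α ?_ ?_ h).trans hβ
    · rw [show β ^ 2 - β * α + α ^ 2 = α ^ 2 - α * β + β ^ 2 by ring]; exact h1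
    · rw [show β ^ 2 + β * α + α ^ 2 = α ^ 2 + α * β + β ^ 2 by ring]; exact h2

theorem exists_omega : ∃ ω : ℂ, ω ^ 2 + ω + 1 = 0 ∧ ‖ω‖ = 1 := by
  obtain ⟨d, hd⟩ : ∃ d : ℂ, d ^ 2 = -3 := IsAlgClosed.exists_pow_nat_eq _ (by norm_num)
  refine ⟨(-1 + d) / 2, ?_, ?_⟩
  · linear_combination hd / 4
  · have h : ((-1 + d) / 2) ^ 3 = 1 := by
      linear_combination ((d - 3) / 8) * hd
    exact Complex.norm_eq_one_of_pow_eq_one h (by norm_num)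

theorem cubic_sum {b c : ℂ} {D : ℝ}
    (H : ∀ x : ℂ, 3 * x ^ 2 - 2 * (b + c) * x + b * c = 0 → D ≤ ‖x‖) (m : ℂ) :
    3 * D ≤ ‖0 - m‖ + ‖b - m‖ + ‖c - m‖ := by
  obtain ⟨ω, hω, hn⟩ := exists_omega
  have hω3 : ω ^ 3 = 1 := by linear_combination (ω - 1) * hω
  obtain ⟨α, hα⟩ : ∃ α : ℂ, α ^ 2 = (ω ^ 2 * b + ω * c) / 3 :=
    IsAlgClosed.exists_pow_nat_eq _ (by norm_num)
  obtain ⟨β, hβ⟩ : ∃ β : ℂ, β ^ 2 = (ω * b + ω ^ 2 * c) / 3 :=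
    IsAlgClosed.exists_pow_nat_eq _ (by norm_num)
  have huv : (α * β) ^ 2 = (b ^ 2 - b * c + c ^ 2) / 9 := by
    rw [mul_pow, hα, hβ]
    have e : ω ^ 2 = -ω - 1 := by linear_combination hω
    have e3 : ω ^ 4 = ω := by linear_combination ω * hω3
    linear_combination (b ^ 2 / 9 + c ^ 2 / 9) * hω3 + (b * c / 9) * e3 + (b * c / 9) * e
  have hsum : α ^ 2 + β ^ 2 = -((b + c) / 3) := by
    rw [hα, hβ]
    linear_combination ((b + c) / 3) * hω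
  have H1 := H ((b + c) / 3 + α * β) (by linear_combination 3 * huv)
  have H2 := H ((b + c) / 3 - α * β) (by linear_combination 3 * huv)
  have H1' : D ≤ ‖α ^ 2 - α * β + β ^ 2‖ := by
    have e : (b + c) / 3 + α * β = -(α ^ 2 - α * β + β ^ 2) := by linear_combination hsum
    rwa [e, norm_neg] at H1
  have H2' : D ≤ ‖α ^ 2 + α * β + β ^ 2‖ := by
    have e : (b + c) / 3 - α * β = -(α ^ 2 + α * β + β ^ 2) := by linear_combination hsum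
    rwa [e, norm_neg] at H2
  have hn2 : ‖ω ^ 2‖ = 1 := by rw [norm_pow, hn]; norm_num
  have hA : ‖α‖ ^ 2 ≤ (‖0 - m‖ + ‖b - m‖ + ‖c - m‖) / 3 := by
    rw [← norm_pow, hα]
    have e : (ω ^ 2 * b + ω * c) / 3 = ((0 - m) + ω ^ 2 * (b - m) + ω * (c - m)) / 3 := by
      linear_combination (m / 3) * hω
    rw [e, norm_div]
    have e3 : ‖(3 : ℂ)‖ = 3 := by simp
    rw [e3]
    apply div_le_div_of_nonneg_right _ (by norm_num)
    refine (norm_add₃_le).trans ?_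
    rw [norm_mul, norm_mul, hn, hn2, one_mul, one_mul]
  have hB : ‖β‖ ^ 2 ≤ (‖0 - m‖ + ‖b - m‖ + ‖c - m‖) / 3 := by
    rw [← norm_pow, hβ]
    have e : (ω * b + ω ^ 2 * c) / 3 = ((0 - m) + ω * (b - m) + ω ^ 2 * (c - m)) / 3 := by
      linear_combination (m / 3) * hω
    rw [e, norm_div]
    have e3 : ‖(3 : ℂ)‖ = 3 := by simp
    rw [e3]
    apply div_le_div_of_nonneg_right _ (by norm_num)
    refine (norm_add₃_le).trans ?_
    rw [norm_mul, norm_mul, hn, hn2, one_mul, one_mul]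
  have := quad_min H1' H2' hA hB
  linarith

/-- three unit vectors with sum zero -/
theorem unit_three {x y z : ℂ} {D : ℝ} (hD : 0 < D) (hx : ‖x‖ = D) (hy : ‖y‖ = D) (hz : ‖z‖ = D)
    (h : x + y + z = 0) : x * y + y * z + z * x = 0 := by
  have cx : x * (starRingEnd ℂ) x = (D : ℂ) ^ 2 := by
    rw [Complex.mul_conj, Complex.normSq_eq_norm_sq, hx]; push_cast; rfl
  have cy : y * (starRingEnd ℂ) y = (D : ℂ) ^ 2 := by
    rw [Complex.mul_conj, Complex.normSq_eq_norm_sq, hy]; push_cast; rfl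
  have cz : z * (starRingEnd ℂ) z = (D : ℂ) ^ 2 := by
    rw [Complex.mul_conj, Complex.normSq_eq_norm_sq, hz]; push_cast; rfl
  have hc : (starRingEnd ℂ) x + (starRingEnd ℂ) y + (starRingEnd ℂ) z = 0 := by
    rw [← map_add, ← map_add, h, map_zero]
  have hD0 : (D : ℂ) ^ 2 ≠ 0 := pow_ne_zero _ (by exact_mod_cast hD.ne')
  apply mul_left_cancel₀ hD0
  rw [mul_zero]
  -- D² (xy + yz + zx) = xyz (conj x + conj y + conj z)
  linear_combination (x * y * z) * hc - (y * z) * cx - (x * z) * cy - (x * y) * cz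

end Pool.Agent.Lib.c113aaT
end
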