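import Pool.Agent.Lib.c113aaT.Line

section

set_option autoImplicit false

namespace Pool.Agent.Lib.c113aaT

open Finset Polynomial

/-- a continuous function without zeros between `a` and `b` does not change its sign -/
theorem same_sign {φ : ℝ → ℝ} (hφ : Continuous φ) {a b : ℝ} (h : ∀ t ∈ Set.uIcc a b, φ t ≠ 0) :
    0 < φ a * φ b := by
  by_contra hcon
  rw [not_lt] at hcon
  have h0 : (0 : ℝ) ∈ Set.uIcc (φ a) (φ b) := by
    rcases le_total (φ a) 0 with ha | ha
    · rcases le_total (φ b) 0 with hb | hb
      · have h1 : φ a * φ b = 0 := le_antisymm hcon (mul_nonneg_of_nonpos_of_nonpos ha hb)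
        rcases mul_eq_zero.1 h1 with h2 | h2
        · exact absurd h2 (h a Set.left_mem_uIcc)
        · exact absurd h2 (h b Set.right_mem_uIcc)
      · exact Set.mem_uIcc.2 (Or.inl ⟨ha, hb⟩)
    · rcases le_total (φ b) 0 with hb | hb
      · exact Set.mem_uIcc.2 (Or.inr ⟨hb, ha⟩)
      · have h1 : φ a * φ b = 0 := le_antisymm hcon (mul_nonneg ha hb)
        rcases mul_eq_zero.1 h1 with h2 | h2
        · exact absurd h2 (h a Set.left_mem_uIcc)
        · exact absurd h2 (h b Set.right_mem_uIcc)
  obtain ⟨t, ht, ht0⟩ := intermediate_value_uIcc hφ.continuousOn h0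
  exact h t ht ht0

theorem log_deriv_prod {ι : Type*} [DecidableEq ι] (s : Finset ι) (r : ι → ℝ) (t : ℝ)
    (h : ∀ i ∈ s, t - r i ≠ 0) :
    (derivative (∏ i ∈ s, (X - C (r i)) : ℝ[X])).eval t =
      (∏ i ∈ s, (t - r i)) * ∑ i ∈ s, 1 / (t - r i) := by
  rw [derivative_prod_finset, eval_finset_sum, Finset.mul_sum]
  refine Finset.sum_congr rfl fun i hi => ?_
  rw [derivative_X_sub_C, mul_one, eval_prod, ← Finset.mul_prod_erase s _ hi]
  have := h i hi
  simp only [eval_sub, eval_X, eval_C]
  field_simp

theorem line_real {ι : Type*} [DecidableEq ι] (s : Finset ι) (hs : s.Nonempty) (r : ι → ℝ) {D : ℝ}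
    (hD : 0 < D)
    (H : ∀ t : ℝ, (derivative (X * ∏ i ∈ s, (X - C (r i)) : ℝ[X])).eval t = 0 → D ≤ |t|) (m : ℝ) :
    ((s.card : ℝ) + 1) * D ≤ |m| + ∑ i ∈ s, |r i - m| := by
  set g : ℝ[X] := ∏ i ∈ s, (X - C (r i)) with hg
  have hge : ∀ t : ℝ, g.eval t = ∏ i ∈ s, (t - r i) := by
    intro t
    rw [hg, eval_prod]
    simp only [eval_sub, eval_X, eval_C]
  have hfe : ∀ t : ℝ, (derivative (X * g)).eval t = g.eval t + t * (derivative g).eval t := by
    intro t
    rw [derivative_mul, derivative_X, one_mul, eval_add, eval_mul, eval_X]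
  -- g has no zeros in (-D, D)
  have hg0 : ∀ t : ℝ, |t| < D → g.eval t ≠ 0 := by
    intro t ht h0
    rcases eq_or_ne t 0 with rfl | htne
    · have h1 := H 0 (by rw [hfe, h0, zero_mul, add_zero])
      rw [abs_zero] at h1
      linarith
    · -- Rolle between 0 and t
      have hf0 : (X * g).eval 0 = 0 := by simp
      have hft : (X * g).eval t = 0 := by rw [eval_mul, h0, mul_zero]
      rcases lt_or_gt_of_ne htne with hlt | hgt
      · obtain ⟨c, hc, hc0⟩ := exists_hasDerivAt_eq_zero (f := fun x => (X * g).eval x)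
          (f' := fun x => (derivative (X * g)).eval x) hlt
          (by exact (Polynomial.continuous _).continuousOn) (by simp only [hf0, hft])
          (fun x _ => Polynomial.hasDerivAt _ x)
        have h1 := H c hc0
        rw [abs_of_neg hlt] at ht
        rw [abs_of_neg hc.2] at h1
        have := hc.1
        linarith
      · obtain ⟨c, hc, hc0⟩ := exists_hasDerivAt_eq_zero (f := fun x => (X * g).eval x)
          (f' := fun x => (derivative (X * g)).eval x) hgt
          (by exact (Polynomial.continuous _).continuousOn) (by simp only [hf0, hft])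
          (fun x _ => Polynomial.hasDerivAt _ x)
        have h1 := H c hc0
        rw [abs_of_pos hgt] at ht
        rw [abs_of_pos hc.1] at h1
        have := hc.2
        linarith
  have huIcc : ∀ t : ℝ, |t| < D → ∀ x ∈ Set.uIcc 0 t, |x| < D := by
    intro t ht x hx
    refine lt_of_le_of_lt ?_ ht
    rw [Set.mem_uIcc] at hx
    rcases hx with hx | hx
    · rw [abs_of_nonneg hx.1, abs_of_nonneg (hx.1.trans hx.2)]
      exact hx.2
    · rw [abs_of_nonpos hx.2, abs_of_nonpos (hx.1.trans hx.2)]
      linarith [hx.1]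
  -- the key inequality
  have key : ∀ t : ℝ, |t| < D → 0 ≤ 1 + t * ∑ i ∈ s, 1 / (t - r i) := by
    intro t ht
    have h1 : 0 < g.eval 0 * g.eval t :=
      same_sign (Polynomial.continuous g) fun x hx => hg0 x (huIcc t ht x hx)
    have h2 : 0 < (derivative (X * g)).eval 0 * (derivative (X * g)).eval t :=
      same_sign (Polynomial.continuous _) fun x hx h0 => by
        have h3 := H x h0
        have h4 := huIcc t ht x hx
        linarith
    have hne : ∀ i ∈ s, t - r i ≠ 0 := by
      intro i hi h0
      apply hg0 t ht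
      rw [hge]
      exact Finset.prod_eq_zero hi h0
    rw [hfe, hfe, zero_mul, add_zero, hg, log_deriv_prod s r t hne, ← hg, ← hge] at h2
    have h3 : g.eval 0 * (g.eval t + t * (g.eval t * ∑ i ∈ s, 1 / (t - r i))) =
        (g.eval 0 * g.eval t) * (1 + t * ∑ i ∈ s, 1 / (t - r i)) := by ring
    rw [h3] at h2
    exact (pos_of_mul_pos_right h2 h1.le).le
  have hr : ∀ i ∈ s, D ≤ |r i| := by
    intro i hi
    by_contra hcon
    rw [not_le] at hcon
    apply hg0 _ hcon
    rw [hge]
    exact Finset.prod_eq_zero hi (sub_self _)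
  -- for every τ < D
  have main : ∀ τ : ℝ, 0 < τ → τ < D → ((s.card : ℝ) + 1) * τ ≤ |m| + ∑ i ∈ s, |r i - m| := by
    intro τ hτ hτD
    have hτ0 : τ ≠ 0 := hτ.ne'
    have h1 := line_core s hs (fun i => r i / τ)
      (by
        intro i hi
        rw [abs_div, abs_of_pos hτ, lt_div_iff₀ hτ, one_mul]
        exact lt_of_lt_of_le hτD (hr i hi))
      (by
        have h2 := key τ (by rwa [abs_of_pos hτ])
        rw [Finset.mul_sum] at h2
        refine h2.trans (le_of_eq ?_)
        congr 1
        refine Finset.sum_congr rfl fun i hi => ?_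
        have h3 : τ - r i ≠ 0 := by
          intro h0
          have h4 := hr i hi
          rw [← sub_eq_zero.1 h0, abs_of_pos hτ] at h4
          linarith
        have h4 : 1 - r i / τ = (τ - r i) / τ := by field_simp
        rw [h4]
        field_simp)
      (by
        have h2 := key (-τ) (by rwa [abs_neg, abs_of_pos hτ])
        rw [Finset.mul_sum] at h2
        refine h2.trans (le_of_eq ?_)
        congr 1
        refine Finset.sum_congr rfl fun i hi => ?_
        have h3 : τ + r i ≠ 0 := by
          intro h0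
          have h4 := hr i hi
          have h5 : r i = -τ := by linarith
          rw [h5, abs_neg, abs_of_pos hτ] at h4
          linarith
        have h5 : -τ - r i ≠ 0 := by
          intro h0
          apply h3
          linarith
        have h4 : 1 + r i / τ = (τ + r i) / τ := by field_simp
        rw [h4]
        field_simp
        ring)
      (m / τ)
    have h2 : |m / τ| + ∑ i ∈ s, |r i / τ - m / τ| = (|m| + ∑ i ∈ s, |r i - m|) / τ := by
      rw [add_div, Finset.sum_div, abs_div, abs_of_pos hτ]
      congr 1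
      refine Finset.sum_congr rfl fun i _ => ?_
      rw [← sub_div, abs_div, abs_of_pos hτ]
    rw [h2, le_div_iff₀ hτ] at h1
    exact h1
  by_contra hcon
  rw [not_le] at hcon
  have hc : 0 < (s.card : ℝ) + 1 := by positivity
  set S := |m| + ∑ i ∈ s, |r i - m| with hS
  have hS0 : 0 ≤ S := by positivity
  have h1 : S / ((s.card : ℝ) + 1) < D := by
    rw [div_lt_iff₀ hc]
    linarith
  obtain ⟨τ, h2, h3⟩ := exists_between h1
  have h4 := main τ (lt_of_le_of_lt (by positivity) h2) h3
  rw [div_lt_iff₀ hc] at h2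
  linarith

end Pool.Agent.Lib.c113aaT
end
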