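import Pool.Agent.Lib.MP_c113aa_an.Final
import Pool.Agent.Lib.c113aaT.Cubic
import Pool.Agent.Lib.c113aaT.LineB

section

set_option autoImplicit false

namespace Pool.Agent.Lib.c113aaT

open Finset Polynomial Pool.MP_c113aa_an.BV

/-- zeros of the derivative are at distance at least `D` -/
theorem crit_pt {N : ℕ} {Z : Fin (N + 1) → ℂ} {w : Fin N → ℂ} (h : CritOf Z w) {z₀ : ℂ} {D : ℝ}
    (hw : ∀ j, D ≤ ‖z₀ - w j‖) {x : ℂ}
    (hx : (derivative (∏ k, (X - C (Z k)) : ℂ[X])).eval x = 0) : D ≤ ‖x - z₀‖ := by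
  rw [critOf_iff] at h
  rw [h, eval_mul, eval_C, eval_prod] at hx
  have h1 : ((N : ℂ) + 1) ≠ 0 := by exact_mod_cast Nat.succ_ne_zero N
  have h2 := (mul_eq_zero.1 hx).resolve_left h1
  obtain ⟨j, _, hj⟩ := Finset.prod_eq_zero_iff.1 h2
  rw [eval_sub, eval_X, eval_C] at hj
  rw [sub_eq_zero.1 hj, norm_sub_rev]
  exact hw j

theorem prod_split {N : ℕ} (Z : Fin (N + 1) → ℂ) (k₀ : Fin (N + 1)) :
    (∏ k, (X - C (Z k)) : ℂ[X]) = (X - C (Z k₀)) * ∏ k ∈ univ.erase k₀, (X - C (Z k)) :=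
  (Finset.mul_prod_erase univ _ (mem_univ k₀)).symm

theorem simple_zero {N : ℕ} {Z : Fin (N + 1) → ℂ} {w : Fin N → ℂ} (h : CritOf Z w)
    (k₀ : Fin (N + 1)) {D : ℝ} (hD : 0 < D) (hw : ∀ j, D ≤ ‖Z k₀ - w j‖) :
    ∀ k, k ≠ k₀ → Z k ≠ Z k₀ := by
  intro k hk hZ
  have hx : (derivative (∏ k, (X - C (Z k)) : ℂ[X])).eval (Z k₀) = 0 := by
    rw [prod_split Z k₀, derivative_mul, derivative_X_sub_C, one_mul, eval_add, eval_mul, eval_sub,
      eval_X, eval_C, sub_self, zero_mul, add_zero, eval_prod]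
    apply Finset.prod_eq_zero (Finset.mem_erase.2 ⟨hk, mem_univ k⟩)
    rw [eval_sub, eval_X, eval_C, hZ, sub_self]
  have := crit_pt h hw hx
  rw [sub_self, norm_zero] at this
  linarith

/-- The conclusions. -/
def Concl {N : ℕ} (Z : Fin (N + 1) → ℂ) (w : Fin N → ℂ) (D : ℝ) : Prop :=
  (∀ m : ℂ, ((N : ℝ) + 1) * D ≤ ∑ k, ‖Z k - m‖) ∧
    (∀ m : ℂ, (∀ k, ‖Z k - m‖ = D) → ∑ k, (Z k - m) = 0 → ∃ c', ∀ j, w j = c')

theorem line_case {N : ℕ} {Z : Fin (N + 1) → ℂ} {w : Fin N → ℂ} (h : CritOf Z w) (hN : 1 ≤ N)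
    (k₀ : Fin (N + 1)) {D : ℝ} (hD : 0 < D) (hw : ∀ j, D ≤ ‖Z k₀ - w j‖)
    (hl : ∃ z₀ v : ℂ, ∀ k, ∃ r : ℝ, Z k = z₀ + r * v) : Concl Z w D := by
  obtain ⟨z₀, v, hr⟩ := hl
  choose r hr using hr
  have hsimple := simple_zero h k₀ hD hw
  obtain ⟨y, hy⟩ : ∃ y : Fin (N + 1) → ℝ, y = fun k => r k - r k₀ := ⟨_, rfl⟩
  have hZ : ∀ k, Z k = Z k₀ + y k * v := by
    intro k
    rw [hr k, hr k₀, hy]
    push_cast
    ring
  have hyk₀ : y k₀ = 0 := by rw [hy]; simp
  obtain ⟨s, hsd⟩ : ∃ s : Finset (Fin (N + 1)), s = univ.erase k₀ := ⟨_, rfl⟩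
  have hcard : s.card = N := by rw [hsd, Finset.card_erase_of_mem (mem_univ _)]; simp
  have hs : s.Nonempty := Finset.card_pos.1 (by omega)
  have hsk : ∀ k ∈ s, k ≠ k₀ := by
    intro k hk
    rw [hsd] at hk
    exact Finset.ne_of_mem_erase hk
  have hv : v ≠ 0 := by
    intro h0
    obtain ⟨k, hk⟩ := hs
    exact hsimple k (hsk k hk) (by rw [hZ k, h0, mul_zero, add_zero])
  have hvn : 0 < ‖v‖ := norm_pos_iff.2 hv
  have hy0 : ∀ k ∈ s, y k ≠ 0 := by
    intro k hk h0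
    exact hsimple k (hsk k hk) (by rw [hZ k, h0]; simp)
  -- the polynomial on the line
  have hcomp : (∏ k, (X - C (Z k)) : ℂ[X]).comp (C (Z k₀) + C v * X) =
      C (v ^ (N + 1)) * (X * ∏ i ∈ s, (X - C (y i)) : ℝ[X]).map Complex.ofRealHom := by
    rw [Polynomial.prod_comp]
    have e1 : ∀ k ∈ (univ : Finset (Fin (N + 1))), (X - C (Z k) : ℂ[X]).comp (C (Z k₀) + C v * X) =
        C v * (X - C (y k : ℂ)) := by
      intro k _
      rw [sub_comp, X_comp, C_comp, hZ k, C_add, C_mul]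
      ring
    rw [Finset.prod_congr rfl e1, Finset.prod_mul_distrib, Finset.prod_const, Finset.card_univ,
      Fintype.card_fin, C_pow]
    congr 1
    rw [← Finset.mul_prod_erase univ _ (mem_univ k₀), ← hsd, Polynomial.map_mul, Polynomial.map_X,
      Polynomial.map_prod, hyk₀]
    simp
  have H : ∀ t : ℝ, (derivative (X * ∏ i ∈ s, (X - C (y i)) : ℝ[X])).eval t = 0 →
      D / ‖v‖ ≤ |t| := by
    intro t ht
    have h1 := congrArg (fun p : ℂ[X] => (derivative p).eval (t : ℂ)) hcomp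
    simp only [derivative_comp, derivative_C_mul, eval_mul, eval_comp, derivative_map, eval_C,
      derivative_add, derivative_C, derivative_X, eval_add, eval_X, mul_one, zero_add] at h1
    have h2 : (Polynomial.map Complex.ofRealHom
        (derivative (X * ∏ i ∈ s, (X - C (y i)) : ℝ[X]))).eval (t : ℂ) = 0 := by
      have h3 : (t : ℂ) = Complex.ofRealHom t := rfl
      rw [h3, eval_map, eval₂_at_apply, ht, map_zero]
    rw [h2, mul_zero] at h1
    have h3 := (mul_eq_zero.1 h1).resolve_left hv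
    have h4 := crit_pt h hw h3
    rw [add_sub_cancel_left, norm_mul, Complex.norm_real, Real.norm_eq_abs] at h4
    rw [div_le_iff₀ hvn, mul_comm]
    exact h4
  have hdiff : ∀ m : ℂ, ∀ k, Z k - m = v * ((y k : ℂ) - (m - Z k₀) / v) := by
    intro m k
    rw [hZ k]
    field_simp
    ring
  refine ⟨fun m => ?_, fun m hm hsum => ?_⟩
  · have h1 := line_real s hs y (div_pos hD hvn) H ((m - Z k₀) / v).re
    rw [hcard] at h1
    have h2 : ∀ k, ‖v‖ * |y k - ((m - Z k₀) / v).re| ≤ ‖Z k - m‖ := by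
      intro k
      rw [hdiff m k, norm_mul]
      apply mul_le_mul_of_nonneg_left _ hvn.le
      have h3 := Complex.abs_re_le_norm ((y k : ℂ) - (m - Z k₀) / v)
      rw [Complex.sub_re, Complex.ofReal_re] at h3
      exact h3
    have h3 : ∑ k, ‖Z k - m‖ = ‖Z k₀ - m‖ + ∑ k ∈ s, ‖Z k - m‖ := by
      rw [hsd, Finset.add_sum_erase univ (fun k => ‖Z k - m‖) (mem_univ k₀)]
    have h4 : ‖v‖ * |((m - Z k₀) / v).re| ≤ ‖Z k₀ - m‖ := by
      have := h2 k₀
      rwa [hyk₀, zero_sub, abs_neg] at this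
    have h5 : ‖v‖ * ∑ i ∈ s, |y i - ((m - Z k₀) / v).re| ≤ ∑ k ∈ s, ‖Z k - m‖ := by
      rw [Finset.mul_sum]
      exact Finset.sum_le_sum fun i _ => h2 i
    have h6 := mul_le_mul_of_nonneg_left h1 hvn.le
    have h7 : ‖v‖ * (((N : ℝ) + 1) * (D / ‖v‖)) = ((N : ℝ) + 1) * D := by field_simp
    rw [h7] at h6
    rw [h3]
    linarith
  · -- at most two distinct zeros
    have hquad : ∀ k ∈ s, y k * ‖v‖ ^ 2 = -2 * (v.re * (Z k₀ - m).re + v.im * (Z k₀ - m).im) := by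
      intro k hk
      have h1 : ‖Z k - m‖ ^ 2 = ‖Z k₀ - m‖ ^ 2 := by rw [hm k, hm k₀]
      have h2 : Z k - m = y k * v + (Z k₀ - m) := by rw [hZ k]; ring
      rw [h2, nsq, nsq (Z k₀ - m)] at h1
      simp only [Complex.add_re, Complex.mul_re, Complex.ofReal_re, Complex.ofReal_im, zero_mul,
        sub_zero, Complex.add_im, Complex.mul_im, add_zero] at h1
      rw [nsq]
      have h3 : y k * (y k * (v.re ^ 2 + v.im ^ 2) +
          2 * (v.re * (Z k₀ - m).re + v.im * (Z k₀ - m).im)) = 0 := by linarith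
      have h4 := (mul_eq_zero.1 h3).resolve_left (hy0 k hk)
      linarith
    obtain ⟨i, hi⟩ := hs
    have hall : ∀ k ∈ s, Z k = Z i := by
      intro k hk
      have h1 := hquad k hk
      have h2 := hquad i hi
      have h3 : y k = y i := by
        have h4 : (y k - y i) * ‖v‖ ^ 2 = 0 := by linarith
        have h5 := (mul_eq_zero.1 h4).resolve_right (by positivity)
        linarith
      rw [hZ k, hZ i, h3]
    have h1 : ∑ k, (Z k - m) = (Z k₀ - m) + N * (Z i - m) := by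
      rw [← Finset.add_sum_erase univ (fun k => Z k - m) (mem_univ k₀), ← hsd,
        Finset.sum_congr rfl fun k hk => by rw [hall k hk], Finset.sum_const, hcard, nsmul_eq_mul]
    rw [h1] at hsum
    have h2 : Z k₀ - m = -(N * (Z i - m)) := by linear_combination hsum
    have h3 := congrArg norm h2
    rw [norm_neg, norm_mul, hm k₀, hm i, Complex.norm_natCast] at h3
    have h4 : (N : ℝ) = 1 := by
      have : ((N : ℝ) - 1) * D = 0 := by linarith
      have := (mul_eq_zero.1 this).resolve_right hD.ne'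
      linarith
    have h5 : N = 1 := by exact_mod_cast h4
    subst h5
    exact ⟨w 0, fun j => by rw [Subsingleton.elim j 0]⟩

end Pool.Agent.Lib.c113aaT
end
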