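import Mathlib

section

set_option autoImplicit false

namespace Pool.Agent.Lib.c113aaT

open Finset

/-- one side: the harmonic mean inequality -/
theorem line_half {ι : Type*} (R L : Finset ι) (y : ι → ℝ) (hR : ∀ i ∈ R, 1 < y i)
    (hL : ∀ i ∈ L, y i < -1)
    (hp : 0 ≤ 1 + ∑ i ∈ R, 1 / (1 - y i) + ∑ i ∈ L, 1 / (1 - y i)) :
    (R.card : ℝ) * (2 + L.card) + 2 * (R.card : ℝ) ^ 2 ≤ (2 + (L.card : ℝ)) * ∑ i ∈ R, y i := by
  have h1 : ∑ i ∈ L, 1 / (1 - y i) ≤ (L.card : ℝ) / 2 := by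
    have : ∑ i ∈ L, 1 / (1 - y i) ≤ ∑ _i ∈ L, (1 / 2 : ℝ) := by
      refine Finset.sum_le_sum fun i hi => ?_
      have := hL i hi
      exact one_div_le_one_div_of_le (by norm_num) (by linarith)
    rw [Finset.sum_const, nsmul_eq_mul] at this
    linarith
  have h2 : ∑ i ∈ R, 1 / (y i - 1) = -∑ i ∈ R, 1 / (1 - y i) := by
    rw [← Finset.sum_neg_distrib]
    refine Finset.sum_congr rfl fun i _ => ?_
    rw [← neg_sub (y i) 1, one_div, one_div, inv_neg, neg_neg]
  have h3 : ∑ i ∈ R, 1 / (y i - 1) ≤ 1 + (L.card : ℝ) / 2 := by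
    rw [h2]
    linarith
  have h4 : (∑ _i ∈ R, (1 : ℝ)) ^ 2 ≤ (∑ i ∈ R, (y i - 1)) * ∑ i ∈ R, 1 / (y i - 1) := by
    apply Finset.sum_sq_le_sum_mul_sum_of_sq_le_mul
    · intro i hi
      have := hR i hi
      linarith
    · intro i hi
      have := hR i hi
      exact one_div_nonneg.2 (by linarith)
    · intro i hi
      have h5 := hR i hi
      have h6 : y i - 1 ≠ 0 := by linarith
      exact le_of_eq (by field_simp)
  rw [Finset.sum_const, nsmul_eq_mul, mul_one] at h4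
  have h5 : ∑ i ∈ R, (y i - 1) = ∑ i ∈ R, y i - R.card := by
    rw [Finset.sum_sub_distrib, Finset.sum_const, nsmul_eq_mul, mul_one]
  have h6 : 0 ≤ ∑ i ∈ R, (y i - 1) := Finset.sum_nonneg fun i hi => by
    have := hR i hi
    linarith
  rw [h5] at h4 h6
  have h7 := mul_le_mul_of_nonneg_left h3 h6
  nlinarith

/-- final step for `l ≤ r` -/
theorem line_step {r l : ℕ} (hr : 1 ≤ r) (hlr : l ≤ r) {A B m : ℝ}
    (hA : (r : ℝ) * (2 + l) + 2 * (r : ℝ) ^ 2 ≤ (2 + (l : ℝ)) * A)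
    (hB : (l : ℝ) * (2 + r) + 2 * (l : ℝ) ^ 2 ≤ (2 + (r : ℝ)) * B) :
    ((r : ℝ) + l) + 1 ≤ |m| + |A - r * m| + |B + l * m| := by
  have hr1 : (1 : ℝ) ≤ r := by exact_mod_cast hr
  have hl0 : (0 : ℝ) ≤ l := Nat.cast_nonneg l
  have hBl : (l : ℝ) ≤ B := by
    have : (2 + (r : ℝ)) * l ≤ (2 + (r : ℝ)) * B := by nlinarith [sq_nonneg (l : ℝ)]
    exact le_of_mul_le_mul_left this (by linarith)
  rcases Nat.lt_or_ge l r with h | h
  · have h1 : (l : ℝ) + 1 ≤ r := by exact_mod_cast h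
    obtain ⟨a, ha⟩ : ∃ a : ℝ, A = r * a := ⟨A / r, by field_simp⟩
    have ha1 : (2 + (l : ℝ)) + 2 * r ≤ (2 + (l : ℝ)) * a := by
      have : (r : ℝ) * ((2 + (l : ℝ)) + 2 * r) ≤ r * ((2 + (l : ℝ)) * a) := by
        rw [ha] at hA
        nlinarith
      exact le_of_mul_le_mul_left this (by linarith)
    have e1 : |A - r * m| = r * |a - m| := by
      rw [ha, ← mul_sub, abs_mul, abs_of_nonneg (by linarith : (0 : ℝ) ≤ r)]
    have e2 : |a| ≤ |m| + |a - m| := by
      have := abs_add_le m (a - m)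
      rw [add_sub_cancel] at this
      exact this
    have e3 : |l * a + B| ≤ l * |a - m| + |B + l * m| := by
      have h2 := abs_add_le (l * (a - m)) (B + l * m)
      rw [abs_mul, abs_of_nonneg hl0] at h2
      have e : (l : ℝ) * (a - m) + (B + l * m) = l * a + B := by ring
      rw [e] at h2
      exact h2
    have e4 := le_abs_self a
    have e5 := le_abs_self (l * a + B)
    have e6 := abs_nonneg (a - m)
    rw [e1]
    have e7 : ((l : ℝ) + 1) * |a - m| ≤ r * |a - m| := mul_le_mul_of_nonneg_right h1 e6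
    -- |m| + r|a-m| + |B+lm| ≥ a + l a + B
    have e8 : (1 + (l : ℝ)) * a + B ≤ |m| + r * |a - m| + |B + l * m| := by linarith
    have e9 : (2 + (l : ℝ)) * (((r : ℝ) + l) + 1) ≤ (2 + (l : ℝ)) * ((1 + (l : ℝ)) * a + B) := by
      nlinarith [mul_le_mul_of_nonneg_left ha1 (by linarith : (0 : ℝ) ≤ 1 + l),
        mul_nonneg hl0 (by linarith : (0 : ℝ) ≤ r)]
    have e10 := le_of_mul_le_mul_left e9 (by linarith)
    linarith
  · have hlr' : l = r := le_antisymm hlr h
    subst hlr'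
    have h2 := abs_add_le (A - l * m) (B + l * m)
    have e : A - l * m + (B + l * m) = A + B := by ring
    rw [e] at h2
    have h3 := le_abs_self (A + B)
    have h4 := abs_nonneg m
    have h5 : (2 + (l : ℝ)) * (((l : ℝ) + l) + 1) ≤ (2 + (l : ℝ)) * (A + B) := by nlinarith
    have h6 := le_of_mul_le_mul_left h5 (by linarith)
    linarith

theorem line_core {ι : Type*} (s : Finset ι) (hs : s.Nonempty) (y : ι → ℝ)
    (h1 : ∀ i ∈ s, 1 < |y i|)
    (hp : 0 ≤ 1 + ∑ i ∈ s, 1 / (1 - y i)) (hm : 0 ≤ 1 + ∑ i ∈ s, 1 / (1 + y i)) (m : ℝ) :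
    (s.card : ℝ) + 1 ≤ |m| + ∑ i ∈ s, |y i - m| := by
  classical
  have hR : ∀ i ∈ s.filter (fun i => 0 < y i), 1 < y i := by
    intro i hi
    rw [Finset.mem_filter] at hi
    have := h1 i hi.1
    rwa [abs_of_pos hi.2] at this
  have hL : ∀ i ∈ s.filter (fun i => ¬ 0 < y i), y i < -1 := by
    intro i hi
    rw [Finset.mem_filter] at hi
    have := h1 i hi.1
    rw [abs_of_nonpos (not_lt.1 hi.2)] at this
    linarith
  obtain ⟨R, hRd⟩ : ∃ R : Finset ι, R = s.filter (fun i => 0 < y i) := ⟨_, rfl⟩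
  obtain ⟨L, hLd⟩ : ∃ L : Finset ι, L = s.filter (fun i => ¬ 0 < y i) := ⟨_, rfl⟩
  have hsum : ∀ f : ι → ℝ, ∑ i ∈ s, f i = ∑ i ∈ R, f i + ∑ i ∈ L, f i := by
    intro f
    rw [hRd, hLd, Finset.sum_filter_add_sum_filter_not]
  have hcard : s.card = R.card + L.card := by
    rw [hRd, hLd, Finset.card_filter_add_card_filter_not]
  rw [← hRd] at hR
  rw [← hLd] at hL
  have hpos : 0 < s.card := Finset.card_pos.2 hs
  have H1 := line_half R L y hR hL (by rw [hsum] at hp; linarith)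
  have H2 := line_half L R (fun i => -y i) (fun i hi => by have := hL i hi; linarith)
    (fun i hi => by have := hR i hi; linarith)
    (by
      rw [hsum] at hm
      simp only [sub_neg_eq_add]
      linarith)
  rw [Finset.sum_neg_distrib] at H2
  have a1 : |∑ i ∈ R, y i - R.card * m| ≤ ∑ i ∈ R, |y i - m| := by
    have e : ∑ i ∈ R, y i - R.card * m = ∑ i ∈ R, (y i - m) := by
      rw [Finset.sum_sub_distrib, Finset.sum_const, nsmul_eq_mul]
    rw [e]
    exact Finset.abs_sum_le_sum_abs _ _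
  have a2 : |-∑ i ∈ L, y i + L.card * m| ≤ ∑ i ∈ L, |y i - m| := by
    have e : -∑ i ∈ L, y i + L.card * m = -∑ i ∈ L, (y i - m) := by
      rw [Finset.sum_sub_distrib, Finset.sum_const, nsmul_eq_mul]
      ring
    rw [e, abs_neg]
    exact Finset.abs_sum_le_sum_abs _ _
  rw [hsum, hcard]
  push_cast
  rcases le_total L.card R.card with h | h
  · have H := line_step (m := m) (by omega) h H1 H2
    linarith
  · have H := line_step (m := -m) (by omega) h H2 H1
    have e1 : |(-∑ i ∈ L, y i) - L.card * (-m)| = |-∑ i ∈ L, y i + L.card * m| := by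
      congr 1; ring
    have e2 : |∑ i ∈ R, y i + R.card * (-m)| = |∑ i ∈ R, y i - R.card * m| := by
      congr 1; ring
    rw [e1, e2, abs_neg] at H
    linarith

end Pool.Agent.Lib.c113aaT
end
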