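import Pool.Agent.Lib.c113aaT.Three

section

set_option autoImplicit false

namespace Pool.Agent.Lib.c113aaT

open Finset Polynomial Pool.MP_c113aa_an.BV

/-- equality in the power mean inequality -/
theorem jensen_eq {m : ℕ} {x : Fin (m + 1) → ℝ} (hx : ∀ k, 0 ≤ x k) {p D : ℝ} (hp : 1 < p)
    (hD : 0 < D) (h1 : ((m : ℝ) + 1) * D ≤ ∑ k, x k)
    (h2 : ∑ k, x k ^ p ≤ ((m : ℝ) + 1) * D ^ p) : ∀ k, x k = D := by
  by_contra hcon
  push Not at hcon
  obtain ⟨k₁, hk₁⟩ := hcon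
  have hDp : 0 < D ^ p := Real.rpow_pos_of_pos hD p
  have h4 : ∀ k, x k ^ p = D ^ p * (1 + (x k / D - 1)) ^ p := by
    intro k
    have h5 : 0 ≤ x k / D := div_nonneg (hx k) hD.le
    rw [add_sub_cancel, ← Real.mul_rpow hD.le h5, mul_div_cancel₀ _ hD.ne']
  have hm1 : ∀ k, -1 ≤ x k / D - 1 := by
    intro k
    have h5 : 0 ≤ x k / D := div_nonneg (hx k) hD.le
    linarith
  have key : ∀ k, D ^ p * (1 + p * (x k / D - 1)) ≤ x k ^ p := by
    intro k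
    rw [h4 k]
    exact mul_le_mul_of_nonneg_left (one_add_mul_self_le_rpow_one_add (hm1 k) hp.le) hDp.le
  have key1 : D ^ p * (1 + p * (x k₁ / D - 1)) < x k₁ ^ p := by
    rw [h4 k₁]
    refine mul_lt_mul_of_pos_left (one_add_mul_self_lt_rpow_one_add (hm1 k₁) ?_ hp) hDp
    intro h5
    apply hk₁
    have h6 : x k₁ / D = 1 := by linarith
    rwa [div_eq_one_iff_eq hD.ne'] at h6
  have h5 : ∑ k, D ^ p * (1 + p * (x k / D - 1)) < ∑ k, x k ^ p :=
    Finset.sum_lt_sum (fun k _ => key k) ⟨k₁, Finset.mem_univ _, key1⟩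
  have h6 : ∑ k, D ^ p * (1 + p * (x k / D - 1)) =
      D ^ p * (((m : ℝ) + 1) + p * ((∑ k, x k) / D - ((m : ℝ) + 1))) := by
    rw [← Finset.mul_sum, Finset.sum_add_distrib, ← Finset.mul_sum, Finset.sum_sub_distrib,
      ← Finset.sum_div]
    simp
  rw [h6] at h5
  have h7 : (m : ℝ) + 1 ≤ (∑ k, x k) / D := by
    rw [le_div_iff₀ hD]
    exact h1
  have h8 : D ^ p * ((m : ℝ) + 1) ≤
      D ^ p * (((m : ℝ) + 1) + p * ((∑ k, x k) / D - ((m : ℝ) + 1))) := by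
    apply mul_le_mul_of_nonneg_left _ hDp.le
    have := mul_nonneg (by linarith : (0 : ℝ) ≤ p) (sub_nonneg.2 h7)
    linarith
  linarith

theorem concl_key {N : ℕ} {Z : Fin (N + 1) → ℂ} {w : Fin N → ℂ} {D p : ℝ} (hD : 0 < D)
    (hp : 1 < p) (hC : Concl Z w D) {c₁ : ℂ}
    (h1 : ∑ k, ‖Z k - c₁‖ ^ p ≤ ((N : ℝ) + 1) * D ^ p)
    (hmin : ∀ c' : ℂ, ∑ k, ‖Z k - c₁‖ ^ p ≤ ∑ k, ‖Z k - c'‖ ^ p) : ∃ c', ∀ j, w j = c' := by
  have h2 := jensen_eq (x := fun k => ‖Z k - c₁‖) (fun k => norm_nonneg _) hp hD (hC.1 c₁) h1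
  have h3 := foc_of_min Z hp c₁ hmin
  have h4 : ((D ^ (p - 2) : ℝ) : ℂ) * ∑ k, (Z k - c₁) = 0 := by
    rw [Finset.mul_sum, ← h3]
    refine Finset.sum_congr rfl fun k _ => ?_
    rw [h2 k]
  apply hC.2 c₁ h2
  refine (mul_eq_zero.1 h4).resolve_left ?_
  exact_mod_cast (Real.rpow_pos_of_pos hD (p - 2)).ne'

/-- the inequality for `1 ≤ p` -/
theorem concl_ineq {N : ℕ} {Z : Fin (N + 1) → ℂ} {H p : ℝ} (hp : 1 ≤ p)
    (hC : 0 < H → ∀ m : ℂ, ((N : ℝ) + 1) * H ≤ ∑ k, ‖Z k - m‖) :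
    H ≤ ⨅ c : ℂ, ((1 / ((N + 1 : ℕ) : ℝ)) * ∑ k, ‖Z k - c‖ ^ p) ^ (1 / p) := by
  refine le_ciInf fun c => ?_
  have hN : (0 : ℝ) < (N : ℝ) + 1 := by positivity
  have hS : 0 ≤ ∑ k, ‖Z k - c‖ ^ p :=
    Finset.sum_nonneg fun k _ => Real.rpow_nonneg (norm_nonneg _) _
  have hT : 0 ≤ (1 / ((N + 1 : ℕ) : ℝ)) * ∑ k, ‖Z k - c‖ ^ p := mul_nonneg (by positivity) hS
  rcases le_or_gt H 0 with hH | hH
  · exact hH.trans (Real.rpow_nonneg hT _)
  · set V := ((1 / ((N + 1 : ℕ) : ℝ)) * ∑ k, ‖Z k - c‖ ^ p) ^ (1 / p) with hV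
    have hV0 : 0 ≤ V := Real.rpow_nonneg hT _
    have h1 : V ^ p = (1 / ((N + 1 : ℕ) : ℝ)) * ∑ k, ‖Z k - c‖ ^ p := by
      rw [hV, ← Real.rpow_mul hT, one_div_mul_cancel (by linarith), Real.rpow_one]
    have h2 : ∑ k, ‖Z k - c‖ ^ p ≤ ((N : ℝ) + 1) * V ^ p := by
      rw [h1]
      push_cast
      apply le_of_eq
      field_simp
    have h3 := power_mean (fun k => ‖Z k - c‖) (fun k => norm_nonneg _) (p := 1) (q := p)
      (by norm_num) hp hV0 h2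
    simp only [Real.rpow_one] at h3
    have h4 := hC hH c
    exact le_of_mul_le_mul_left (h4.trans h3) hN

/-- The general theorem, given the conclusions for the configuration. -/
theorem main_of {N : ℕ} (hN1 : 1 ≤ N) (F : ℂ[X]) (hF : F.natDegree = N + 1)
    (hcore : ∀ (Z : Fin (N + 1) → ℂ) (w : Fin N → ℂ), F.roots = Multiset.map Z Finset.univ.val →
      CritOf Z w → ∀ (k₀ : Fin (N + 1)) (D : ℝ), 0 < D → (∀ j, D ≤ ‖Z k₀ - w j‖) → Concl Z w D)
    (p : ℝ) :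
    (1 ≤ p → sSup {d : ℝ | ∃ z ∈ F.roots,
          d = sInf {r : ℝ | ∃ w ∈ (derivative F).roots, r = ‖z - w‖}} ≤
        ⨅ c : ℂ, ((1 / ((N + 1 : ℕ) : ℝ)) *
          (F.roots.map (fun z => ‖z - c‖ ^ p)).sum) ^ (1 / p)) ∧
      (1 < p → (sSup {d : ℝ | ∃ z ∈ F.roots,
          d = sInf {r : ℝ | ∃ w ∈ (derivative F).roots, r = ‖z - w‖}} =
        (⨅ c : ℂ, ((1 / ((N + 1 : ℕ) : ℝ)) *
          (F.roots.map (fun z => ‖z - c‖ ^ p)).sum) ^ (1 / p)) ↔
      ∃ a b c : ℂ, F = C a * (X - C c) ^ (N + 1) - C b)) := by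
  obtain ⟨a, Z, w, ha, hFZ, hroots, hroots', hcrit⟩ := exists_fin_roots F hF
  have hσ : (⨅ c : ℂ, ((1 / ((N + 1 : ℕ) : ℝ)) *
        (F.roots.map (fun z => ‖z - c‖ ^ p)).sum) ^ (1 / p))
      = ⨅ c : ℂ, ((1 / ((N + 1 : ℕ) : ℝ)) * ∑ k, ‖Z k - c‖ ^ p) ^ (1 / p) := by
    refine iInf_congr fun c => ?_
    rw [hroots, Multiset.map_map]
    rfl
  rw [hσ]
  obtain ⟨⟨k₀, hk₀⟩, hk⟩ := hausdorff_eq F hN1 Z w hroots hroots'
  set H : ℝ := sSup {d : ℝ | ∃ z ∈ F.roots,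
          d = sInf {r : ℝ | ∃ w ∈ (derivative F).roots, r = ‖z - w‖}} with hHdef
  refine ⟨fun hp => concl_ineq hp fun hH => (hcore Z w hroots hcrit k₀ H hH hk₀).1, fun hpp => ?_⟩
  obtain ⟨hs0, ⟨c₁, hc₁⟩, hsle⟩ := sigma_attained Z hpp
  set σ : ℝ := ⨅ c : ℂ, ((1 / ((N + 1 : ℕ) : ℝ)) * ∑ k, ‖Z k - c‖ ^ p) ^ (1 / p) with hσdef
  have j₀ : Fin N := ⟨0, hN1⟩
  constructor
  · intro hHσ
    rcases hs0.lt_or_eq with hpos | hzero
    · have h1 : ∑ k, ‖Z k - c₁‖ ^ p ≤ ((N : ℝ) + 1) * H ^ p := by rw [hc₁, hHσ]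
      have hHpos : 0 < H := by rw [hHσ]; exact hpos
      obtain ⟨c', hc'⟩ := concl_key hHpos hpp (hcore Z w hroots hcrit k₀ H hHpos hk₀) h1
        (fun c' => by rw [hc₁]; exact hsle c')
      obtain ⟨b, hb⟩ := hcrit.special c' hc'
      refine ⟨a, a * b, c', ?_⟩
      rw [hFZ, hb, mul_sub, C_mul]
    · have h1 : ∑ k, ‖Z k - c₁‖ ^ p = 0 := by
        rw [hc₁, ← hzero, Real.zero_rpow (by linarith), mul_zero]
      have h2 : ∀ k, Z k = c₁ := by
        intro k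
        have h3 := (Finset.sum_eq_zero_iff_of_nonneg
          (fun k _ => Real.rpow_nonneg (norm_nonneg (Z k - c₁)) p)).1 h1 k (Finset.mem_univ k)
        have h4 := (Real.rpow_eq_zero (norm_nonneg _) (by linarith)).1 h3
        exact sub_eq_zero.1 (norm_eq_zero.1 h4)
      refine ⟨a, 0, c₁, ?_⟩
      rw [hFZ]
      simp [h2]
  · rintro ⟨a', b', c, hF'⟩
    have hlead : F.leadingCoeff = a := by
      rw [hFZ, leadingCoeff_mul, leadingCoeff_C,
        (monic_prod_of_monic _ _ fun k _ => monic_X_sub_C (Z k)).leadingCoeff, mul_one]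
    have hcoef : F.coeff (N + 1) = a' := by
      rw [hF']
      have h1 : ((X - C c) ^ (N + 1) : ℂ[X]).coeff (N + 1) = 1 := by
        have h2 := (monic_X_sub_C c).pow (N + 1)
        have h3 : ((X - C c) ^ (N + 1) : ℂ[X]).natDegree = N + 1 := by
          rw [natDegree_pow, natDegree_X_sub_C, mul_one]
        rw [Monic, leadingCoeff, h3] at h2
        exact h2
      rw [coeff_sub, coeff_C_mul, h1, coeff_C]
      simp
    have haa : a' = a := by
      rw [← hcoef, ← hlead, leadingCoeff, hF]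
    rw [haa] at hF'
    have hb : (∏ k, (X - C (Z k)) : ℂ[X]) = (X - C c) ^ (N + 1) - C (b' / a) := by
      have h1 : C a * (∏ k, (X - C (Z k)) : ℂ[X])
          = C a * ((X - C c) ^ (N + 1) - C (b' / a)) := by
        rw [← hFZ, hF', mul_sub, ← C_mul, mul_div_cancel₀ _ ha]
      exact mul_left_cancel₀ (C_ne_zero.2 ha) h1
    have hw : ∀ j, w j = c := by
      intro j
      have h1 : w j ∈ (derivative F).roots := by
        rw [hroots']
        exact Multiset.mem_map_of_mem w (Finset.mem_univ_val j)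
      have h2 := (mem_roots'.1 h1).2
      rw [hF', IsRoot.def] at h2
      rw [derivative_sub, derivative_C, sub_zero, derivative_C_mul, derivative_X_sub_C_pow,
        eval_mul, eval_C, eval_mul, eval_pow, eval_sub, eval_X, eval_C, eval_C] at h2
      have h3 := (mul_eq_zero.1 h2).resolve_left ha
      have h4 : (w j - c) ^ (N + 1 - 1) = 0 := by
        refine (mul_eq_zero.1 h3).resolve_left ?_
        simp
        exact_mod_cast Nat.succ_ne_zero N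
      exact sub_eq_zero.1 (pow_eq_zero_iff (by omega) |>.1 h4)
    obtain ⟨r, hr0, hr, hrle⟩ := special_eq hN1 hb hpp
    have hHr : H = r := by
      apply le_antisymm
      · have := hk₀ j₀
        rw [hw j₀, hr k₀] at this
        exact this
      · obtain ⟨j, hj⟩ := hk k₀
        rw [hw j, hr k₀] at hj
        exact hj
    have hσr : σ = r := by
      apply le_antisymm
      · apply le_of_rpow_le' (m := N) hr0 hpp
        refine (hsle c).trans (le_of_eq ?_)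
        rw [Finset.sum_congr rfl fun k _ => by rw [hr k]]
        simp
      · apply le_of_rpow_le' (m := N) hs0 hpp
        rw [← hc₁]
        exact hrle c₁
    rw [hHr, hσr]

theorem card_le_two' {S : Finset ℂ} (h : S.card ≤ 2) : ∃ b c : ℂ, ∀ x ∈ S, x = b ∨ x = c := by
  classical
  rcases Nat.lt_or_ge S.card 1 with h1 | h1
  · refine ⟨0, 0, fun x hx => ?_⟩
    rw [Finset.card_eq_zero.1 (by omega : S.card = 0)] at hx
    exact absurd hx (Finset.notMem_empty x)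
  rcases Nat.lt_or_ge S.card 2 with h2 | h2
  · obtain ⟨a, ha⟩ := Finset.card_eq_one.1 (by omega : S.card = 1)
    refine ⟨a, a, fun x hx => ?_⟩
    rw [ha, Finset.mem_singleton] at hx
    exact Or.inl hx
  · obtain ⟨a, b, _, hab⟩ := Finset.card_eq_two.1 (by omega : S.card = 2)
    refine ⟨a, b, fun x hx => ?_⟩
    rw [hab, Finset.mem_insert, Finset.mem_singleton] at hx
    exact hx

theorem concl_of {N : ℕ} (hN : 1 ≤ N) (F : ℂ[X])
    (hyp : F.roots.toFinset.card ≤ 3 ∨ Collinear ℝ {z : ℂ | z ∈ F.roots})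
    (Z : Fin (N + 1) → ℂ) (w : Fin N → ℂ) (hroots : F.roots = Multiset.map Z Finset.univ.val)
    (h : CritOf Z w) (k₀ : Fin (N + 1)) (D : ℝ) (hD : 0 < D) (hw : ∀ j, D ≤ ‖Z k₀ - w j‖) :
    Concl Z w D := by
  classical
  have hmem : ∀ k, Z k ∈ F.roots := by
    intro k
    rw [hroots]
    exact Multiset.mem_map_of_mem Z (Finset.mem_univ_val k)
  rcases hyp with h3 | hcol
  · have h4 : (F.roots.toFinset.erase (Z k₀)).card ≤ 2 := by
      rw [Finset.card_erase_of_mem (Multiset.mem_toFinset.2 (hmem k₀))]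
      omega
    obtain ⟨b, c, hbc⟩ := card_le_two' h4
    refine three_values h hN k₀ hD hw ⟨b, c, fun k hk => ?_⟩
    exact hbc _ (Finset.mem_erase.2 ⟨simple_zero h k₀ hD hw k hk,
      Multiset.mem_toFinset.2 (hmem k)⟩)
  · rw [collinear_iff_exists_forall_eq_smul_vadd] at hcol
    obtain ⟨z₀, v, hv⟩ := hcol
    refine line_case h hN k₀ hD hw ⟨z₀, v, fun k => ?_⟩
    obtain ⟨r, hr⟩ := hv (Z k) (hmem k)
    refine ⟨r, ?_⟩
    rw [hr, vadd_eq_add, Complex.real_smul]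
    ring

/-- The theorem. -/
theorem main (n : ℕ) (hn : 2 ≤ n) (F : ℂ[X]) (hF : F.natDegree = n)
    (hyp : F.roots.toFinset.card ≤ 3 ∨ Collinear ℝ {z : ℂ | z ∈ F.roots}) (p : ℝ) :
    (1 ≤ p → sSup {d : ℝ | ∃ z ∈ F.roots,
          d = sInf {r : ℝ | ∃ w ∈ (derivative F).roots, r = ‖z - w‖}} ≤
        ⨅ c : ℂ, ((1 / (n : ℝ)) * (F.roots.map (fun z => ‖z - c‖ ^ p)).sum) ^ (1 / p)) ∧
      (1 < p → (sSup {d : ℝ | ∃ z ∈ F.roots,
          d = sInf {r : ℝ | ∃ w ∈ (derivative F).roots, r = ‖z - w‖}} =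
        (⨅ c : ℂ, ((1 / (n : ℝ)) * (F.roots.map (fun z => ‖z - c‖ ^ p)).sum) ^ (1 / p)) ↔
      ∃ a b c : ℂ, F = C a * (X - C c) ^ n - C b)) := by
  obtain ⟨N, rfl⟩ : ∃ N, n = N + 1 := ⟨n - 1, by omega⟩
  have hN1 : 1 ≤ N := by omega
  exact main_of hN1 F hF (fun Z w hroots h k₀ D hD hw =>
    concl_of hN1 F hyp Z w hroots h k₀ D hD hw) p

end Pool.Agent.Lib.c113aaT
end
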