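import Pool.Agent.Lib.c113aaT.Core

section

set_option autoImplicit false

namespace Pool.Agent.Lib.c113aaT

open Finset Polynomial Pool.MP_c113aa_an.BV

theorem three_der (z₀ b c x : ℂ) (j k : ℕ) (hj : 1 ≤ j) (hk : 1 ≤ k)
    (hx : (1 + (j : ℂ) + k) * x ^ 2 - ((1 + (k : ℂ)) * (b - z₀) + (1 + (j : ℂ)) * (c - z₀)) * x +
      (b - z₀) * (c - z₀) = 0) :
    (derivative ((X - C z₀) * (X - C b) ^ j * (X - C c) ^ k : ℂ[X])).eval (z₀ + x) = 0 := by
  obtain ⟨j', rfl⟩ : ∃ j', j = j' + 1 := ⟨j - 1, by omega⟩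
  obtain ⟨k', rfl⟩ : ∃ k', k = k' + 1 := ⟨k - 1, by omega⟩
  rw [derivative_mul, derivative_mul, derivative_X_sub_C, derivative_X_sub_C_pow,
    derivative_X_sub_C_pow]
  simp only [Nat.add_sub_cancel, eval_add, eval_mul, eval_pow, eval_sub, eval_X, eval_C, one_mul,
    add_sub_cancel_left]
  push_cast at hx ⊢
  linear_combination ((z₀ + x - b) ^ j' * (z₀ + x - c) ^ k') * hx

theorem three_case {N : ℕ} {Z : Fin (N + 1) → ℂ} {w : Fin N → ℂ} (h : CritOf Z w)
    (k₀ : Fin (N + 1)) {D : ℝ} (hD : 0 < D) (hw : ∀ j, D ≤ ‖Z k₀ - w j‖) {b c : ℂ} {j k : ℕ}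
    (hj : 1 ≤ j) (hjk : j ≤ k) (hN : j + k = N)
    (hP : (∏ i, (X - C (Z i)) : ℂ[X]) = (X - C (Z k₀)) * (X - C b) ^ j * (X - C c) ^ k)
    (hsum : ∀ f : ℂ → ℝ, ∑ i, f (Z i) = f (Z k₀) + j * f b + k * f c)
    (hsumC : ∀ f : ℂ → ℂ, ∑ i, f (Z i) = f (Z k₀) + j * f b + k * f c)
    (hb : ∃ i, i ≠ k₀ ∧ Z i = b) (hc : ∃ i, i ≠ k₀ ∧ Z i = c) : Concl Z w D := by
  have hsimple := simple_zero h k₀ hD hw
  obtain ⟨ib, hib, hZb⟩ := hb
  obtain ⟨ic, hic, hZc⟩ := hc
  have hb0 : b - Z k₀ ≠ 0 := by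
    rw [← hZb]
    exact sub_ne_zero.2 (hsimple ib hib)
  have H : ∀ x : ℂ, (1 + (j : ℂ) + k) * x ^ 2 - ((1 + (k : ℂ)) * (b - Z k₀) +
      (1 + (j : ℂ)) * (c - Z k₀)) * x + (b - Z k₀) * (c - Z k₀) = 0 → D ≤ ‖x‖ := by
    intro x hx
    have h1 := three_der (Z k₀) b c x j k hj (hj.trans hjk) hx
    rw [← hP] at h1
    have h2 := crit_pt h hw h1
    rwa [add_sub_cancel_left] at h2
  have hNr : (N : ℝ) = j + k := by
    rw [← hN]
    push_cast
    ring
  have hsum' : ∀ m : ℂ, ∑ i, ‖Z i - m‖ = ‖0 - (m - Z k₀)‖ + j * ‖(b - Z k₀) - (m - Z k₀)‖ +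
      k * ‖(c - Z k₀) - (m - Z k₀)‖ := by
    intro m
    rw [hsum (fun z => ‖z - m‖), show (0 : ℂ) - (m - Z k₀) = Z k₀ - m by ring,
      show (b - Z k₀) - (m - Z k₀) = b - m by ring, show (c - Z k₀) - (m - Z k₀) = c - m by ring]
  rcases Nat.lt_or_ge k 2 with hk2 | hk2
  · -- the cubic case
    have hk1 : k = 1 := by omega
    have hj1 : j = 1 := by omega
    subst hk1
    subst hj1
    subst hN
    refine ⟨fun m => ?_, fun m hm hs => ?_⟩
    · have h1 := cubic_sum (b := b - Z k₀) (c := c - Z k₀) (D := D)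
        (by
          intro x hx
          apply H
          push_cast
          linear_combination hx)
        (m - Z k₀)
      rw [hsum' m]
      push_cast
      linarith
    · refine ⟨m, fun i => ?_⟩
      have h0 := hsumC (fun z => z - m)
      rw [hs] at h0
      have h1 : (Z k₀ - m) + (b - m) + (c - m) = 0 := by
        push_cast at h0
        linear_combination -h0
      have hbD : ‖b - m‖ = D := by rw [← hZb]; exact hm ib
      have hcD : ‖c - m‖ = D := by rw [← hZc]; exact hm ic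
      have h2 := unit_three hD (hm k₀) hbD hcD h1
      -- the derivative at w i
      have h3 : (derivative (∏ i, (X - C (Z i)) : ℂ[X])).eval (w i) = 0 := by
        rw [(critOf_iff Z w).1 h, eval_mul, eval_prod,
          Finset.prod_eq_zero (Finset.mem_univ i) (by rw [eval_sub, eval_X, eval_C, sub_self]),
          mul_zero]
      rw [hP, pow_one, pow_one, derivative_mul, derivative_mul, derivative_X_sub_C,
        derivative_X_sub_C, derivative_X_sub_C] at h3
      simp only [eval_add, eval_mul, eval_sub, eval_X, eval_C, one_mul, mul_one] at h3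
      have h4 : (w i - m) ^ 2 = 0 := by
        linear_combination (1 / 3) * h3 - (1 / 3) * h2 + (2 / 3) * (w i - m) * h1
      exact sub_eq_zero.1 (pow_eq_zero_iff (by norm_num) |>.1 h4)
  · refine ⟨fun m => ?_, fun m hm _ => ?_⟩
    · have h1 := (tri_sum hj hjk hk2 hb0 hD H (m - Z k₀)).1
      rw [hsum' m, hNr]
      linarith
    · exfalso
      apply (tri_sum hj hjk hk2 hb0 hD H (m - Z k₀)).2
      refine ⟨?_, ?_, ?_⟩
      · rw [show (0 : ℂ) - (m - Z k₀) = Z k₀ - m by ring]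
        exact hm k₀
      · rw [show (b - Z k₀) - (m - Z k₀) = b - m by ring, ← hZb]
        exact hm ib
      · rw [show (c - Z k₀) - (m - Z k₀) = c - m by ring, ← hZc]
        exact hm ic

/-- At most two further values. -/
theorem three_values {N : ℕ} {Z : Fin (N + 1) → ℂ} {w : Fin N → ℂ} (h : CritOf Z w) (hN : 1 ≤ N)
    (k₀ : Fin (N + 1)) {D : ℝ} (hD : 0 < D) (hw : ∀ j, D ≤ ‖Z k₀ - w j‖)
    (hl : ∃ b c : ℂ, ∀ k, k ≠ k₀ → Z k = b ∨ Z k = c) : Concl Z w D := by
  classical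
  obtain ⟨b, c, hbc⟩ := hl
  obtain ⟨J, hJ⟩ : ∃ J : Finset (Fin (N + 1)), J = (univ.erase k₀).filter (fun i => Z i = b) :=
    ⟨_, rfl⟩
  obtain ⟨K, hK⟩ : ∃ K : Finset (Fin (N + 1)), K = (univ.erase k₀).filter (fun i => ¬ Z i = b) :=
    ⟨_, rfl⟩
  have hJb : ∀ i ∈ J, Z i = b := by
    intro i hi
    rw [hJ, Finset.mem_filter] at hi
    exact hi.2
  have hKc : ∀ i ∈ K, Z i = c := by
    intro i hi
    rw [hK, Finset.mem_filter] at hi
    exact (hbc i (Finset.ne_of_mem_erase hi.1)).resolve_left hi.2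
  have hJk : ∀ i ∈ J, i ≠ k₀ := by
    intro i hi
    rw [hJ, Finset.mem_filter] at hi
    exact Finset.ne_of_mem_erase hi.1
  have hKk : ∀ i ∈ K, i ≠ k₀ := by
    intro i hi
    rw [hK, Finset.mem_filter] at hi
    exact Finset.ne_of_mem_erase hi.1
  have hcard : J.card + K.card = N := by
    rw [hJ, hK, Finset.card_filter_add_card_filter_not, Finset.card_erase_of_mem (mem_univ _)]
    simp
  have hmem : ∀ i, i ≠ k₀ → i ∈ J ∨ i ∈ K := by
    intro i hi
    rw [hJ, hK, Finset.mem_filter, Finset.mem_filter]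
    have : i ∈ univ.erase k₀ := Finset.mem_erase.2 ⟨hi, mem_univ i⟩
    by_cases hb : Z i = b
    · exact Or.inl ⟨this, hb⟩
    · exact Or.inr ⟨this, hb⟩
  -- if all others are equal: line
  have hline : ∀ e : ℂ, (∀ i, i ≠ k₀ → Z i = e) → Concl Z w D := by
    intro e he
    apply line_case h hN k₀ hD hw
    refine ⟨Z k₀, e - Z k₀, fun i => ?_⟩
    by_cases hi : i = k₀
    · exact ⟨0, by rw [hi]; simp⟩
    · exact ⟨1, by rw [he i hi]; push_cast; ring⟩
  rcases Nat.eq_zero_or_pos J.card with hJ0 | hJ0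
  · apply hline c
    intro i hi
    rcases hmem i hi with h1 | h1
    · rw [Finset.card_eq_zero] at hJ0
      rw [hJ0] at h1
      exact absurd h1 (Finset.notMem_empty i)
    · exact hKc i h1
  rcases Nat.eq_zero_or_pos K.card with hK0 | hK0
  · apply hline b
    intro i hi
    rcases hmem i hi with h1 | h1
    · exact hJb i h1
    · rw [Finset.card_eq_zero] at hK0
      rw [hK0] at h1
      exact absurd h1 (Finset.notMem_empty i)
  obtain ⟨ib, hib⟩ := Finset.card_pos.1 hJ0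
  obtain ⟨ic, hic⟩ := Finset.card_pos.1 hK0
  have hprod : (∏ i, (X - C (Z i)) : ℂ[X]) =
      (X - C (Z k₀)) * ((X - C b) ^ J.card * (X - C c) ^ K.card) := by
    rw [prod_split Z k₀, ← Finset.prod_filter_mul_prod_filter_not (univ.erase k₀)
      (fun i => Z i = b), ← hJ, ← hK]
    rw [Finset.prod_congr rfl fun i hi => by rw [hJb i hi], Finset.prod_const]
    rw [Finset.prod_congr (s₁ := K) rfl fun i hi => by rw [hKc i hi], Finset.prod_const]
  have hsum : ∀ f : ℂ → ℝ, ∑ i, f (Z i) = f (Z k₀) + (J.card * f b + K.card * f c) := by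
    intro f
    rw [← Finset.add_sum_erase univ (fun i => f (Z i)) (mem_univ k₀),
      ← Finset.sum_filter_add_sum_filter_not (univ.erase k₀) (fun i => Z i = b), ← hJ, ← hK]
    rw [Finset.sum_congr rfl fun i hi => by rw [hJb i hi], Finset.sum_const, nsmul_eq_mul]
    rw [Finset.sum_congr (s₁ := K) rfl fun i hi => by rw [hKc i hi], Finset.sum_const,
      nsmul_eq_mul]
  have hsumC : ∀ f : ℂ → ℂ, ∑ i, f (Z i) = f (Z k₀) + (J.card * f b + K.card * f c) := by
    intro f
    rw [← Finset.add_sum_erase univ (fun i => f (Z i)) (mem_univ k₀),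
      ← Finset.sum_filter_add_sum_filter_not (univ.erase k₀) (fun i => Z i = b), ← hJ, ← hK]
    rw [Finset.sum_congr rfl fun i hi => by rw [hJb i hi], Finset.sum_const, nsmul_eq_mul]
    rw [Finset.sum_congr (s₁ := K) rfl fun i hi => by rw [hKc i hi], Finset.sum_const,
      nsmul_eq_mul]
  rcases le_total J.card K.card with hle | hle
  · exact three_case h k₀ hD hw (b := b) (c := c) hJ0 hle hcard (by rw [hprod]; ring)
      (fun f => by rw [hsum]; ring) (fun f => by rw [hsumC]; ring)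
      ⟨ib, hJk ib hib, hJb ib hib⟩ ⟨ic, hKk ic hic, hKc ic hic⟩
  · exact three_case h k₀ hD hw (b := c) (c := b) hK0 hle (by omega) (by rw [hprod]; ring)
      (fun f => by rw [hsum]; ring) (fun f => by rw [hsumC]; ring)
      ⟨ic, hKk ic hic, hKc ic hic⟩ ⟨ib, hJk ib hib, hJb ib hib⟩

end Pool.Agent.Lib.c113aaT
end
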