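import Mathlib

section

set_option autoImplicit false

namespace Pool.Agent.Lib.c113aaT

/-!
Three distinct zeros 0 (simple), b (j times), c (k times).  With the critical point of smallest
modulus at 1 we write b = 1 + j u, c (u - 1) = (1 + k) u - 1, (b - c) (u - 1) = u (j u - (j + k)).
-/

theorem nsq (z : ℂ) : ‖z‖ ^ 2 = z.re ^ 2 + z.im ^ 2 := by
  rw [Complex.sq_norm, Complex.normSq_apply]
  ring

theorem nsq1 (j : ℝ) (u : ℂ) : ‖1 + (j : ℂ) * u‖ ^ 2 = (1 + j * u.re) ^ 2 + (j * u.im) ^ 2 := by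
  rw [nsq]
  simp

theorem nsq2 (k : ℝ) (u : ℂ) :
    ‖(1 + (k : ℂ)) * u - 1‖ ^ 2 = ((1 + k) * u.re - 1) ^ 2 + ((1 + k) * u.im) ^ 2 := by
  rw [nsq]
  simp

theorem nsq3 (u : ℂ) : ‖u - 1‖ ^ 2 = (u.re - 1) ^ 2 + u.im ^ 2 := by
  rw [nsq]
  simp

/-- the condition on the second critical point, squared -/
theorem tri_P {j k : ℝ} (hj : 1 ≤ j) (hk : 1 ≤ k) {u : ℂ}
    (hP : (1 + j + k) * ‖u - 1‖ ≤ ‖1 + (j : ℂ) * u‖ * ‖(1 + (k : ℂ)) * u - 1‖) :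
    (1 + j + k) * (1 + j) ≤ (1 + k) * ‖1 + (j : ℂ) * u‖ ^ 2 := by
  have h1 : ((1 + j + k) * ‖u - 1‖) ^ 2 ≤ (‖1 + (j : ℂ) * u‖ * ‖(1 + (k : ℂ)) * u - 1‖) ^ 2 :=
    pow_le_pow_left₀ (by positivity) hP 2
  rw [mul_pow, mul_pow, nsq1, nsq2, nsq3] at h1
  rw [nsq1]
  set x := u.re
  set y := u.im
  have hT : 0 < (1 + j + k) * (j * (x ^ 2 + y ^ 2) + 1) - ((1 + j * x) ^ 2 + (j * y) ^ 2) := by
    have e : (1 + j + k) * (j * (x ^ 2 + y ^ 2) + 1) - ((1 + j * x) ^ 2 + (j * y) ^ 2)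
        = j * (k * x ^ 2 + (x - 1) ^ 2 + (1 + k) * y ^ 2) + k := by ring
    rw [e]
    positivity
  have hI : ((1 + k) * ((1 + j * x) ^ 2 + (j * y) ^ 2) - (1 + j + k) * (1 + j)) *
      ((1 + j + k) * (j * (x ^ 2 + y ^ 2) + 1) - ((1 + j * x) ^ 2 + (j * y) ^ 2)) =
      j * (((1 + j * x) ^ 2 + (j * y) ^ 2) * (((1 + k) * x - 1) ^ 2 + ((1 + k) * y) ^ 2) -
        (1 + j + k) ^ 2 * ((x - 1) ^ 2 + y ^ 2)) := by ring
  have h2 : 0 ≤ j * (((1 + j * x) ^ 2 + (j * y) ^ 2) * (((1 + k) * x - 1) ^ 2 + ((1 + k) * y) ^ 2) -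
        (1 + j + k) ^ 2 * ((x - 1) ^ 2 + y ^ 2)) :=
    mul_nonneg (by linarith) (by linarith)
  rw [← hI] at h2
  by_contra hcon
  rw [not_le] at hcon
  nlinarith [mul_pos hT (sub_pos.2 hcon)]

/-- one-variable inequality for `j = 1` -/
theorem aux1 {t : ℝ} (h1 : 1 ≤ t) (h2 : t ≤ 2) : 4 * (t - 1) ^ 2 * (4 - t ^ 2) ≤ t ^ 2 := by
  nlinarith [sq_nonneg (2 * t ^ 2 - 2 * t - 2), sq_nonneg (t - 1), sq_nonneg (t - 8 / 5),
    mul_nonneg (sub_nonneg.2 h1) (sub_nonneg.2 h2),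
    mul_nonneg (mul_nonneg (sub_nonneg.2 h1) (sub_nonneg.2 h2)) (sq_nonneg (t - 8 / 5)),
    sq_nonneg (t * (t - 8 / 5))]

/-- the case `j + 1 ≤ k` -/
theorem tri_L1 {j k : ℕ} (hj : 1 ≤ j) (hjk : j + 1 ≤ k) {u : ℂ}
    (hP : (1 + (j : ℝ) + k) * ‖u - 1‖ ≤ ‖1 + ((j : ℝ) : ℂ) * u‖ * ‖(1 + ((k : ℝ) : ℂ)) * u - 1‖) :
    (1 + (j : ℝ) + k) * ‖u - 1‖ ≤ ‖(1 + ((k : ℝ) : ℂ)) * u - 1‖ +
      j * ‖u * (((j : ℝ) : ℂ) * u - (((j : ℝ) : ℂ) + ((k : ℝ) : ℂ)))‖ := by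
  have hj1 : (1 : ℝ) ≤ j := by exact_mod_cast hj
  have hk1 : (j : ℝ) + 1 ≤ k := by exact_mod_cast hjk
  have hT := tri_P hj1 (by linarith) hP
  obtain ⟨J, hJ⟩ : ∃ J : ℝ, J = j := ⟨_, rfl⟩
  obtain ⟨K, hK⟩ : ∃ K : ℝ, K = k := ⟨_, rfl⟩
  rw [← hJ, ← hK] at hT hP ⊢
  rw [← hJ] at hj1 hk1
  rw [← hK] at hk1
  have e1 : J * ‖u * ((J : ℂ) * u - ((J : ℂ) + (K : ℂ)))‖ =
      ‖(J : ℂ) * u‖ * ‖(J : ℂ) * u - ((J : ℂ) + (K : ℂ))‖ := by
    rw [norm_mul, norm_mul, Complex.norm_real, Real.norm_eq_abs, abs_of_nonneg (by linarith)]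
    ring
  rw [e1]
  rcases le_or_gt 1 ‖(J : ℂ) * u‖ with h | h
  · have h1 : ‖(1 + (J : ℂ) + K) * (u - 1)‖ ≤
        ‖(1 + (K : ℂ)) * u - 1‖ + ‖(J : ℂ) * u - ((J : ℂ) + (K : ℂ))‖ := by
      have e2 : (1 + (J : ℂ) + K) * (u - 1) =
          ((1 + (K : ℂ)) * u - 1) + ((J : ℂ) * u - ((J : ℂ) + (K : ℂ))) := by ring
      rw [e2]
      exact norm_add_le _ _
    rw [norm_mul] at h1
    have e3 : ‖(1 + (J : ℂ) + K)‖ = 1 + J + K := by
      have : (1 + (J : ℂ) + K) = ((1 + J + K : ℝ) : ℂ) := by push_cast; ring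
      rw [this, Complex.norm_real, Real.norm_eq_abs, abs_of_nonneg (by linarith)]
    rw [e3] at h1
    nlinarith [norm_nonneg ((J : ℂ) * u - ((J : ℂ) + (K : ℂ)))]
  · -- ‖j u‖ < 1
    set α := ‖(J : ℂ) * u‖ with hα
    have hα0 : 0 ≤ α := norm_nonneg _
    set t := ‖1 + (J : ℂ) * u‖ with ht
    have ht0 : 0 ≤ t := norm_nonneg _
    have ht2 : t ≤ 1 + α := by
      have := norm_add_le (1 : ℂ) ((J : ℂ) * u)
      rw [norm_one] at this
      exact this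
    have htJ : 1 + J < t ^ 2 := by
      by_contra hcon
      rw [not_lt] at hcon
      nlinarith
    have hJ3 : J < 3 := by nlinarith
    have hj2 : j < 3 := by
      rw [hJ] at hJ3
      exact_mod_cast hJ3
    have ht1 : 1 < t := by nlinarith
    -- lower bound of the last factor
    have hL : J + K - 1 ≤ ‖(J : ℂ) * u - ((J : ℂ) + (K : ℂ))‖ := by
      have h1 := norm_sub_norm_le ((J : ℂ) + (K : ℂ)) ((J : ℂ) * u)
      have h2 : ‖(J : ℂ) + (K : ℂ)‖ = J + K := by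
        have : (J : ℂ) + (K : ℂ) = ((J + K : ℝ) : ℂ) := by push_cast; ring
        rw [this, Complex.norm_real, Real.norm_eq_abs, abs_of_nonneg (by linarith)]
      rw [h2, norm_sub_rev] at h1
      linarith
    -- the distance of u to 1
    set γ := ‖u - 1‖ with hγ
    have hγ0 : 0 ≤ γ := norm_nonneg _
    have hβ : (J * γ) ^ 2 = (1 + J) * α ^ 2 + J * (1 + J) - J * t ^ 2 := by
      have a1 : α ^ 2 = (J * u.re) ^ 2 + (J * u.im) ^ 2 := by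
        rw [hα, nsq]; simp
      rw [mul_pow, a1, hγ, nsq3, ht, nsq1]
      ring
    have key : (1 + J + K) * γ * (t - 1) ≤ t * (α * (J + K - 1)) := by
      have hcases : j = 1 ∨ j = 2 := by omega
      rcases hcases with h1 | h2
      · have hJ1 : J = 1 := by rw [hJ, h1]; norm_num
        subst hJ1
        have hK2 : 2 ≤ K := by linarith
        have h3 : 2 * γ * (t - 1) ≤ t * α := by
          apply le_of_sq_le_sq _ (by positivity)
          have h4 : γ ^ 2 = 2 * α ^ 2 + 2 - t ^ 2 := by linarith [hβ]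
          have h5 := aux1 ht1.le (by linarith)
          have e : (2 * γ * (t - 1)) ^ 2 = 4 * (t - 1) ^ 2 * γ ^ 2 := by ring
          rw [e, h4, mul_pow]
          have h6 : α ^ 2 ≤ 1 := by nlinarith
          have h7 : 2 ≤ t ^ 2 := by linarith
          nlinarith [mul_nonneg (sub_nonneg.2 h6) (sub_nonneg.2 h7), sq_nonneg (t - 1),
            mul_nonneg (mul_nonneg (sub_nonneg.2 h6) (sub_nonneg.2 h7)) (sq_nonneg (t - 1)),
            mul_nonneg (sq_nonneg α) (sub_nonneg.2 h5)]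
        nlinarith [mul_nonneg hα0 ht0, mul_nonneg (mul_nonneg hα0 ht0) (by linarith : 0 ≤ K - 2)]
      · have hJ2 : J = 2 := by rw [hJ, h2]; norm_num
        subst hJ2
        have hK3 : 3 ≤ K := by linarith
        have h3 : γ ≤ α := by
          apply le_of_sq_le_sq _ hα0
          nlinarith
        have h4 : t - 1 ≤ t / 2 := by linarith
        have h5 : γ * (t - 1) ≤ α * (t / 2) := mul_le_mul h3 h4 (by linarith) hα0
        nlinarith [mul_nonneg hα0 ht0]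
    set q := ‖(1 + (K : ℂ)) * u - 1‖ with hq
    have hq0 : 0 ≤ q := norm_nonneg _
    have h8 : t * (α * (J + K - 1)) ≤ t * (α * ‖(J : ℂ) * u - ((J : ℂ) + (K : ℂ))‖) := by
      apply mul_le_mul_of_nonneg_left _ ht0
      exact mul_le_mul_of_nonneg_left hL hα0
    have h9 : t * ((1 + J + K) * γ) ≤
        t * (q + α * ‖(J : ℂ) * u - ((J : ℂ) + (K : ℂ))‖) := by nlinarith
    exact le_of_mul_le_mul_left h9 (by linarith)

end Pool.Agent.Lib.c113aaT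
end
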