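import Pool.Agent.Lib.c113aaT.Tri

section

set_option autoImplicit false

namespace Pool.Agent.Lib.c113aaT

theorem aux2 {t : ℝ} (h1 : 5 ≤ t ^ 2) (h0 : 0 ≤ t) (h2 : t ≤ 3) :
    (7 * t ^ 2 - 30 * t + 55) ^ 2 < 40 * (5 - t) ^ 2 * (t ^ 2 - 3) := by
  have h3 : 2.236 ≤ t := by nlinarith
  have e : 40 * (5 - t) ^ 2 * (t ^ 2 - 3) - (7 * t ^ 2 - 30 * t + 55) ^ 2 =
    -(9 * t ^ 4 - 20 * t ^ 3 + 790 * t ^ 2 - 4500 * t + 6025) := by ring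
  have : 9 * t ^ 4 - 20 * t ^ 3 + 790 * t ^ 2 - 4500 * t + 6025 < 0 := by
    have h4 : t ^ 2 ≤ 5.236 * t - 6.708 := by nlinarith
    have h5 : t ^ 4 ≤ 14 * t ^ 2 - 45 := by nlinarith [sq_nonneg t]
    nlinarith
  linarith

/-- the quadratic inequality in `A = ‖u‖ ^ 2` for `j = k = 2` -/
theorem aux3 {t A : ℝ} (h1 : 5 ≤ t ^ 2) (h0 : 0 ≤ t) (h2 : t ≤ 3) :
    (5 - t) ^ 2 * (3 * A + (3 - t ^ 2) / 2) ≤ 4 * A * (5 * A + 5 - t ^ 2) := by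
  have h := aux2 h1 h0 h2
  nlinarith [sq_nonneg (40 * A - (7 * t ^ 2 - 30 * t + 55))]

theorem tri_L2 {j : ℕ} (hj : 2 ≤ j) {u : ℂ}
    (hP : (1 + 2 * (j : ℝ)) * ‖u - 1‖ ≤ ‖1 + ((j : ℝ) : ℂ) * u‖ * ‖(1 + ((j : ℝ) : ℂ)) * u - 1‖) :
    (1 + 2 * (j : ℝ)) * ‖u - 1‖ ≤ ‖(1 + ((j : ℝ) : ℂ)) * u - 1‖ +
      ((j : ℝ) - 1) * ‖u * (((j : ℝ) : ℂ) * u - 2 * ((j : ℝ) : ℂ))‖ ∨
    (1 + 2 * (j : ℝ)) * ‖u - 1‖ ≤ ‖1 + ((j : ℝ) : ℂ) * u‖ * ‖u - 1‖ +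
      ((j : ℝ) - 1) * ‖u * (((j : ℝ) : ℂ) * u - 2 * ((j : ℝ) : ℂ))‖ := by
  have hj1 : (2 : ℝ) ≤ j := by exact_mod_cast hj
  have hT := tri_P (j := (j : ℝ)) (k := (j : ℝ)) (by linarith) (by linarith) (u := u)
    (by
      have e : (1 + (j : ℝ) + j) = 1 + 2 * (j : ℝ) := by ring
      rw [e]
      exact hP)
  obtain ⟨J, hJ⟩ : ∃ J : ℝ, J = j := ⟨_, rfl⟩
  rw [← hJ] at hT hP hj1 ⊢
  have e1 : (J - 1) * ‖u * ((J : ℂ) * u - 2 * (J : ℂ))‖ = ((J - 1) * ‖u‖) * (J * ‖u - 2‖) := by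
    have : u * ((J : ℂ) * u - 2 * (J : ℂ)) = (J : ℂ) * (u * (u - 2)) := by ring
    rw [this, norm_mul, norm_mul, Complex.norm_real, Real.norm_eq_abs, abs_of_nonneg (by linarith)]
    ring
  rw [e1]
  rcases le_or_gt 1 ((J - 1) * ‖u‖) with h | h
  · left
    have h1 : ‖(1 + 2 * (J : ℂ)) * (u - 1)‖ ≤
        ‖(1 + (J : ℂ)) * u - 1‖ + ‖(J : ℂ) * (u - 2)‖ := by
      have e2 : (1 + 2 * (J : ℂ)) * (u - 1) =
          ((1 + (J : ℂ)) * u - 1) + (J : ℂ) * (u - 2) := by ring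
      rw [e2]
      exact norm_add_le _ _
    rw [norm_mul, norm_mul, Complex.norm_real, Real.norm_eq_abs, abs_of_nonneg
      (by linarith : 0 ≤ J)] at h1
    have e3 : ‖(1 + 2 * (J : ℂ))‖ = 1 + 2 * J := by
      have : (1 + 2 * (J : ℂ)) = ((1 + 2 * J : ℝ) : ℂ) := by push_cast; ring
      rw [this, Complex.norm_real, Real.norm_eq_abs, abs_of_nonneg (by linarith)]
    rw [e3] at h1
    have h2 : 0 ≤ J * ‖u - 2‖ := mul_nonneg (by linarith) (norm_nonneg _)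
    nlinarith
  · right
    have hT2 : 1 + 2 * J ≤ ‖1 + (J : ℂ) * u‖ ^ 2 := by
      have h1 : (1 + J) * (1 + 2 * J) ≤ (1 + J) * ‖1 + (J : ℂ) * u‖ ^ 2 := by linarith
      exact le_of_mul_le_mul_left h1 (by linarith)
    have ht2 : ‖1 + (J : ℂ) * u‖ ≤ 1 + J * ‖u‖ := by
      have := norm_add_le (1 : ℂ) ((J : ℂ) * u)
      rw [norm_one, norm_mul, Complex.norm_real, Real.norm_eq_abs, abs_of_nonneg
        (by linarith : 0 ≤ J)] at this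
      exact this
    obtain ⟨a, ha⟩ : ∃ a : ℝ, a = ‖u‖ := ⟨_, rfl⟩
    have ha0 : 0 ≤ a := by rw [ha]; exact norm_nonneg _
    rw [← ha] at h ht2
    obtain ⟨t, ht⟩ : ∃ t : ℝ, t = ‖1 + (J : ℂ) * u‖ := ⟨_, rfl⟩
    have ht0 : 0 ≤ t := by rw [ht]; exact norm_nonneg _
    rw [← ht] at hT2 ht2
    have hj2 : j < 3 := by
      by_contra hcon
      rw [not_lt] at hcon
      have hJ3 : (3 : ℝ) ≤ J := by rw [hJ]; exact_mod_cast hcon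
      have h3 : (J - 1) * t < 2 * J - 1 := by nlinarith
      have h4 : ((J - 1) * t) ^ 2 < (2 * J - 1) ^ 2 := by
        apply pow_lt_pow_left₀ h3 (mul_nonneg (by linarith) ht0) (by norm_num)
      rw [mul_pow] at h4
      have h5 : (J - 1) ^ 2 * (1 + 2 * J) ≤ (J - 1) ^ 2 * t ^ 2 :=
        mul_le_mul_of_nonneg_left hT2 (sq_nonneg _)
      nlinarith [mul_nonneg (by linarith : 0 ≤ J) (sub_nonneg.2 hJ3),
        mul_nonneg (mul_nonneg (by linarith : 0 ≤ J) (sub_nonneg.2 hJ3)) (sub_nonneg.2 hJ3)]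
    have hJ2 : J = 2 := by
      have : j = 2 := by omega
      rw [hJ, this]
      norm_num
    subst hJ2
    have ht3 : t ≤ 3 := by linarith
    have h5 : 5 ≤ t ^ 2 := by linarith
    have hsq : t ^ 2 = (1 + 2 * u.re) ^ 2 + (2 * u.im) ^ 2 := by
      rw [ht, nsq1]
    have hA : a ^ 2 = u.re ^ 2 + u.im ^ 2 := by rw [ha, nsq]
    have e4 : ‖u - 1‖ ^ 2 = 3 * a ^ 2 + (3 - t ^ 2) / 2 := by
      rw [nsq3, hsq, hA]
      ring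
    have e5 : ‖u - 2‖ ^ 2 = 5 * a ^ 2 + 5 - t ^ 2 := by
      rw [nsq, hsq, hA]
      simp
      ring
    have h6 := aux3 (A := a ^ 2) h5 ht0 ht3
    have h7 : (5 - t) * ‖u - 1‖ ≤ 2 * a * ‖u - 2‖ := by
      apply le_of_sq_le_sq _ (by positivity)
      rw [mul_pow, mul_pow, e4, e5]
      linarith
    rw [← ht, ← ha]
    linarith

end Pool.Agent.Lib.c113aaT
end
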