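import Pool.Agent.Lib.c113aaT.TriB

section

set_option autoImplicit false

namespace Pool.Agent.Lib.c113aaT

/-- two roots of a quadratic -/
theorem quad_roots (n S P : ℂ) (hn : n ≠ 0) :
    ∃ w₁ w₂ : ℂ, n * (w₁ + w₂) = S ∧ n * (w₁ * w₂) = P ∧ ‖w₁‖ ≤ ‖w₂‖ := by
  obtain ⟨d, hd⟩ : ∃ d : ℂ, d ^ 2 = S ^ 2 - 4 * n * P :=
    IsAlgClosed.exists_pow_nat_eq _ (by norm_num)
  have key : ∀ d : ℂ, d ^ 2 = S ^ 2 - 4 * n * P →
      n * ((S + d) / (2 * n) + (S - d) / (2 * n)) = S ∧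
      n * ((S + d) / (2 * n) * ((S - d) / (2 * n))) = P := by
    intro d hd
    constructor
    · field_simp
      ring
    · field_simp
      linear_combination -hd
  rcases le_total ‖(S + d) / (2 * n)‖ ‖(S - d) / (2 * n)‖ with h | h
  · exact ⟨_, _, (key d hd).1, (key d hd).2, h⟩
  · refine ⟨(S - d) / (2 * n), (S + d) / (2 * n), ?_, ?_, h⟩
    · rw [add_comm]; exact (key d hd).1
    · rw [mul_comm ((S - d) / (2 * n))]; exact (key d hd).2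

theorem tri_main {j k : ℕ} (hj : 1 ≤ j) (hjk : j ≤ k) (h2 : 2 ≤ k) {b c : ℂ} {D : ℝ} (hD : 0 < D)
    (H : ∀ x : ℂ, (1 + (j : ℂ) + k) * x ^ 2 - ((1 + (k : ℂ)) * b + (1 + (j : ℂ)) * c) * x + b * c = 0 →
      D ≤ ‖x‖) :
    (j + 1 ≤ k ∧ (1 + (j : ℝ) + k) * D ≤ ‖c‖ + j * ‖b - c‖) ∨
    (j = k ∧ ((1 + 2 * (j : ℝ)) * D ≤ ‖c‖ + ((j : ℝ) - 1) * ‖b - c‖ ∨
      (1 + 2 * (j : ℝ)) * D ≤ ‖b‖ + ((j : ℝ) - 1) * ‖b - c‖)) := by
  have hn : (1 + (j : ℂ) + k) ≠ 0 := by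
    have : (1 + (j : ℂ) + k) = ((1 + j + k : ℕ) : ℂ) := by push_cast; ring
    rw [this]
    exact_mod_cast (by omega : 1 + j + k ≠ 0)
  have hj0 : (j : ℂ) ≠ 0 := by exact_mod_cast (by omega : j ≠ 0)
  have hk0 : (k : ℂ) ≠ 0 := by exact_mod_cast (by omega : k ≠ 0)
  obtain ⟨w₁, w₂, hs, hp, hle⟩ := quad_roots (1 + (j : ℂ) + k)
    ((1 + (k : ℂ)) * b + (1 + (j : ℂ)) * c) (b * c) hn
  have hq : (1 + (j : ℂ) + k) * w₁ ^ 2 - ((1 + (k : ℂ)) * b + (1 + (j : ℂ)) * c) * w₁ + b * c = 0 := by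
    rw [← hs, ← hp]
    ring
  have hDw := H w₁ hq
  have hw0 : 0 < ‖w₁‖ := lt_of_lt_of_le hD hDw
  have hw : w₁ ≠ 0 := norm_pos_iff.1 hw0
  obtain ⟨u, hu⟩ : ∃ u : ℂ, u = (b / w₁ - 1) / j := ⟨_, rfl⟩
  have hb : b = w₁ * (1 + (j : ℂ) * u) := by
    rw [hu]
    field_simp
    ring
  have hc : c * (u - 1) = w₁ * ((1 + (k : ℂ)) * u - 1) := by
    have h1 : (j : ℂ) * w₁ * (c * (u - 1)) = (j : ℂ) * w₁ * (w₁ * ((1 + (k : ℂ)) * u - 1)) := by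
      rw [hb] at hq
      linear_combination hq
    exact mul_left_cancel₀ (mul_ne_zero hj0 hw) h1
  have hu1 : u - 1 ≠ 0 := by
    intro h
    rw [h, mul_zero] at hc
    have h3 := (mul_eq_zero.1 hc.symm).resolve_left hw
    have h4 : u = 1 := sub_eq_zero.1 h
    rw [h4] at h3
    apply hk0
    linear_combination h3
  have hu0 : 0 < ‖u - 1‖ := norm_pos_iff.2 hu1
  have hbc : (b - c) * (u - 1) = w₁ * (u * ((j : ℂ) * u - ((j : ℂ) + (k : ℂ)))) := by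
    rw [sub_mul, hc, hb]
    ring
  have nc : ‖c‖ * ‖u - 1‖ = ‖w₁‖ * ‖(1 + (k : ℂ)) * u - 1‖ := by
    rw [← norm_mul, hc, norm_mul]
  have nb : ‖b‖ = ‖w₁‖ * ‖1 + (j : ℂ) * u‖ := by rw [hb, norm_mul]
  have nbc : ‖b - c‖ * ‖u - 1‖ = ‖w₁‖ * ‖u * ((j : ℂ) * u - ((j : ℂ) + (k : ℂ)))‖ := by
    rw [← norm_mul, hbc, norm_mul]
  have hnn : ‖(1 + (j : ℂ) + k)‖ = 1 + (j : ℝ) + k := by
    have : (1 + (j : ℂ) + k) = ((1 + (j : ℝ) + k : ℝ) : ℂ) := by push_cast; ring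
    rw [this, Complex.norm_real, Real.norm_eq_abs, abs_of_nonneg (by positivity)]
  have hP : (1 + (j : ℝ) + k) * ‖u - 1‖ ≤ ‖1 + (j : ℂ) * u‖ * ‖(1 + (k : ℂ)) * u - 1‖ := by
    have h1 := congrArg norm hp
    rw [norm_mul, norm_mul, norm_mul, hnn] at h1
    have h3 : (‖w₁‖ * ‖w₁‖) * ((1 + (j : ℝ) + k) * ‖u - 1‖) ≤
        (‖w₁‖ * ‖w₁‖) * (‖1 + (j : ℂ) * u‖ * ‖(1 + (k : ℂ)) * u - 1‖) := by
      have h4 : (‖w₁‖ * ‖w₁‖) * (‖1 + (j : ℂ) * u‖ * ‖(1 + (k : ℂ)) * u - 1‖) =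
          (‖b‖ * ‖c‖) * ‖u - 1‖ := by
        rw [nb, mul_assoc (‖w₁‖ * _), nc]
        ring
      rw [h4, ← h1]
      have h5 : ‖w₁‖ * ‖w₁‖ ≤ ‖w₁‖ * ‖w₂‖ := mul_le_mul_of_nonneg_left hle hw0.le
      have h6 : 0 ≤ (1 + (j : ℝ) + k) * ‖u - 1‖ := by positivity
      nlinarith
    exact le_of_mul_le_mul_left h3 (by positivity)
  rcases Nat.lt_or_ge j k with hlt | hge
  · left
    refine ⟨hlt, ?_⟩
    have h := tri_L1 hj hlt (u := u) (by simpa using hP)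
    simp only [Complex.ofReal_natCast] at h
    have h3 : ‖u - 1‖ * ((1 + (j : ℝ) + k) * ‖w₁‖) ≤ ‖u - 1‖ * (‖c‖ + j * ‖b - c‖) := by
      have h4 : ‖u - 1‖ * (‖c‖ + j * ‖b - c‖) = ‖w₁‖ * (‖(1 + (k : ℂ)) * u - 1‖ +
          j * ‖u * ((j : ℂ) * u - ((j : ℂ) + (k : ℂ)))‖) := by
        linear_combination nc + (j : ℝ) * nbc
      rw [h4]
      have h5 := mul_le_mul_of_nonneg_left h hw0.le
      linarith
    have h4 := le_of_mul_le_mul_left h3 hu0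
    have h5 : (1 + (j : ℝ) + k) * D ≤ (1 + (j : ℝ) + k) * ‖w₁‖ :=
      mul_le_mul_of_nonneg_left hDw (by positivity)
    linarith
  · right
    have hjk' : j = k := le_antisymm hjk hge
    refine ⟨hjk', ?_⟩
    subst hjk'
    have e0 : (1 + (j : ℝ) + j) = 1 + 2 * (j : ℝ) := by ring
    have e1 : (j : ℂ) + (j : ℂ) = 2 * (j : ℂ) := by ring
    rw [e0] at hP
    rw [e1] at nbc
    have h := tri_L2 (j := j) (by omega) (u := u) (by simpa using hP)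
    simp only [Complex.ofReal_natCast] at h
    have h5 : (1 + 2 * (j : ℝ)) * D ≤ (1 + 2 * (j : ℝ)) * ‖w₁‖ :=
      mul_le_mul_of_nonneg_left hDw (by positivity)
    rcases h with h | h
    · left
      have h3 : ‖u - 1‖ * ((1 + 2 * (j : ℝ)) * ‖w₁‖) ≤ ‖u - 1‖ * (‖c‖ + ((j : ℝ) - 1) * ‖b - c‖) := by
        have h4 : ‖u - 1‖ * (‖c‖ + ((j : ℝ) - 1) * ‖b - c‖) = ‖w₁‖ * (‖(1 + (j : ℂ)) * u - 1‖ +
            ((j : ℝ) - 1) * ‖u * ((j : ℂ) * u - 2 * (j : ℂ))‖) := by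
          linear_combination nc + ((j : ℝ) - 1) * nbc
        rw [h4]
        have h5 := mul_le_mul_of_nonneg_left h hw0.le
        linarith
      have h4 := le_of_mul_le_mul_left h3 hu0
      linarith
    · right
      have h3 : ‖u - 1‖ * ((1 + 2 * (j : ℝ)) * ‖w₁‖) ≤ ‖u - 1‖ * (‖b‖ + ((j : ℝ) - 1) * ‖b - c‖) := by
        have h4 : ‖u - 1‖ * (‖b‖ + ((j : ℝ) - 1) * ‖b - c‖) = ‖w₁‖ * (‖1 + (j : ℂ) * u‖ * ‖u - 1‖ +
            ((j : ℝ) - 1) * ‖u * ((j : ℂ) * u - 2 * (j : ℂ))‖) := by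
          linear_combination ‖u - 1‖ * nb + ((j : ℝ) - 1) * nbc
        rw [h4]
        have h5 := mul_le_mul_of_nonneg_left h hw0.le
        linarith
      have h4 := le_of_mul_le_mul_left h3 hu0
      linarith

/-- the sum of the distances, and the impossibility of equality -/
theorem tri_sum {j k : ℕ} (hj : 1 ≤ j) (hjk : j ≤ k) (h2 : 2 ≤ k) {b c : ℂ} (hb : b ≠ 0)
    {D : ℝ} (hD : 0 < D)
    (H : ∀ x : ℂ, (1 + (j : ℂ) + k) * x ^ 2 - ((1 + (k : ℂ)) * b + (1 + (j : ℂ)) * c) * x + b * c = 0 →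
      D ≤ ‖x‖) (m : ℂ) :
    (1 + (j : ℝ) + k) * D ≤ ‖0 - m‖ + j * ‖b - m‖ + k * ‖c - m‖ ∧
      ¬ (‖0 - m‖ = D ∧ ‖b - m‖ = D ∧ ‖c - m‖ = D) := by
  have t1 : ‖c‖ ≤ ‖0 - m‖ + ‖c - m‖ := by
    have : c = (c - m) - (0 - m) := by ring
    calc ‖c‖ = ‖(c - m) - (0 - m)‖ := by rw [← this]
      _ ≤ ‖c - m‖ + ‖0 - m‖ := norm_sub_le _ _
      _ = _ := add_comm _ _
  have t2 : ‖b‖ ≤ ‖0 - m‖ + ‖b - m‖ := by
    have : b = (b - m) - (0 - m) := by ring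
    calc ‖b‖ = ‖(b - m) - (0 - m)‖ := by rw [← this]
      _ ≤ ‖b - m‖ + ‖0 - m‖ := norm_sub_le _ _
      _ = _ := add_comm _ _
  have t3 : ‖b - c‖ ≤ ‖b - m‖ + ‖c - m‖ := by
    have : b - c = (b - m) - (c - m) := by ring
    rw [this]
    exact norm_sub_le _ _
  have n1 := norm_nonneg (b - m)
  have n2 := norm_nonneg (c - m)
  have hj1 : (1 : ℝ) ≤ j := by exact_mod_cast hj
  rcases tri_main hj hjk h2 hD H with ⟨hlt, h⟩ | ⟨heq, h⟩
  · have hk1 : (j : ℝ) + 1 ≤ k := by exact_mod_cast hlt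
    constructor
    · nlinarith
    · rintro ⟨h3, h4, h5⟩
      rw [h3, h5] at t1
      rw [h4, h5] at t3
      -- equality throughout
      have e1 : ‖c‖ = 2 * D := by
        apply le_antisymm (by linarith)
        nlinarith
      have e2 : ‖b - c‖ = 2 * D := by
        apply le_antisymm (by linarith)
        have : (j : ℝ) * (2 * D) ≤ j * ‖b - c‖ := by nlinarith
        exact le_of_mul_le_mul_left this (by linarith)
      -- ‖(c-m) + (0-m)‖² = 2‖c-m‖²+2‖0-m‖²-‖c‖² = 0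
      have p1 : ‖(c - m) + (0 - m)‖ ^ 2 + ‖(c - m) - (0 - m)‖ ^ 2 =
          2 * (‖c - m‖ ^ 2 + ‖0 - m‖ ^ 2) := by
        have := parallelogram_law_with_norm ℝ (c - m) (0 - m)
        nlinarith
      have p2 : ‖(b - m) + (c - m)‖ ^ 2 + ‖(b - m) - (c - m)‖ ^ 2 =
          2 * (‖b - m‖ ^ 2 + ‖c - m‖ ^ 2) := by
        have := parallelogram_law_with_norm ℝ (b - m) (c - m)
        nlinarith
      have e3 : (c - m) - (0 - m) = c := by ring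
      have e4 : (b - m) - (c - m) = b - c := by ring
      rw [e3, e1, h3, h5] at p1
      rw [e4, e2, h4, h5] at p2
      have q1 : ‖(c - m) + (0 - m)‖ ^ 2 = 0 := by linarith
      have q2 : ‖(b - m) + (c - m)‖ ^ 2 = 0 := by linarith
      have r1 : (c - m) + (0 - m) = 0 := norm_eq_zero.1 (pow_eq_zero_iff (by norm_num) |>.1 q1)
      have r2 : (b - m) + (c - m) = 0 := norm_eq_zero.1 (pow_eq_zero_iff (by norm_num) |>.1 q2)
      apply hb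
      linear_combination r2 - r1
  · subst heq
    have hj2 : (2 : ℝ) ≤ j := by exact_mod_cast h2
    rcases h with h | h
    · constructor
      · nlinarith [mul_le_mul_of_nonneg_left t3 (by linarith : (0 : ℝ) ≤ (j : ℝ) - 1)]
      · rintro ⟨h3, h4, h5⟩
        rw [h3, h5] at t1
        rw [h4, h5] at t3
        nlinarith [mul_le_mul_of_nonneg_left t3 (by linarith : (0 : ℝ) ≤ (j : ℝ) - 1)]
    · constructor
      · nlinarith [mul_le_mul_of_nonneg_left t3 (by linarith : (0 : ℝ) ≤ (j : ℝ) - 1)]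
      · rintro ⟨h3, h4, h5⟩
        rw [h3, h4] at t2
        rw [h4, h5] at t3
        nlinarith [mul_le_mul_of_nonneg_left t3 (by linarith : (0 : ℝ) ≤ (j : ℝ) - 1)]

end Pool.Agent.Lib.c113aaT
end
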